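import Mathlib

/-!
Cones over the facets of a reflexive polytope.
-/

set_option autoImplicit false

noncomputable section

namespace Pool.Agent.Work.MP_2a05c6_ag.T

open Finset Module Submodule Filter Topology

lemma exists_min {X ι : Type} (U : Finset ι) (s : ι → X → Prop) :
    ∃ I ⊆ U, (∀ x, (∀ i ∈ I, s i x) → ∀ i ∈ U, s i x) ∧
      ∀ i ∈ I, ∃ x, ¬ s i x ∧ ∀ j ∈ I, j ≠ i → s j x := by
  classical
  obtain ⟨I, hI, hmin⟩ := (U.powerset.filter
    fun I => ∀ x, (∀ i ∈ I, s i x) → ∀ i ∈ U, s i x).exists_min_image card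
      ⟨U, mem_filter.2 ⟨mem_powerset_self U, fun _ h => h⟩⟩
  obtain ⟨h1, h2⟩ := mem_filter.1 hI
  refine ⟨I, mem_powerset.1 h1, h2, fun i hi => ?_⟩
  by_contra c
  have := hmin (I.erase i) (mem_filter.2 ⟨mem_powerset.2 ((erase_subset i I).trans
    (mem_powerset.1 h1)), fun x hx => h2 x fun j hj => by
      by_cases e : j = i
      · subst e
        by_contra k
        exact c ⟨x, k, fun l hl hl' => hx l (mem_erase.2 ⟨hl', hl⟩)⟩
      · exact hx j (mem_erase.2 ⟨e, hj⟩)⟩)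
  exact absurd (card_erase_lt_of_mem hi) (not_lt.2 this)

lemma zmat {ι : Type} [Fintype ι] (M : ι → ι → ℝ) (hM : ∀ i j, i ≠ j → M i j ≤ 0) (t : ι → ℝ)
    (ht : ∀ i, 0 ≤ t i) (h : ∀ i, 0 < ∑ j, M i j * t j) (a : ι → ℝ)
    (ha : ∀ i, ∑ j, M i j * a j = 0) : a = 0 := by
  classical
  have tp : ∀ i, 0 < t i := fun i => (ht i).lt_of_ne fun e => by
    refine absurd (h i) (not_lt.2 (sum_nonpos fun j _ => ?_))
    by_cases k : i = j
    · rw [← k, ← e, mul_zero]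
    · exact mul_nonpos_of_nonpos_of_nonneg (hM i j k) (ht j)
  have key : ∀ a : ι → ℝ, (∀ i, ∑ j, M i j * a j = 0) → ∀ j, a j ≤ 0 := by
    intro a ha j
    obtain ⟨i, -, hi⟩ := univ.exists_max_image (fun j => a j / t j) ⟨j, mem_univ j⟩
    by_contra c
    have p : 0 < a i / t i := (div_pos (not_le.1 c) (tp j)).trans_le (hi j (mem_univ j))
    have e : ∑ j, M i j * (a i / t i * t j - a j) = a i / t i * ∑ j, M i j * t j := by
      rw [← sub_zero (_ * ∑ j, M i j * t j), ← ha i, mul_sum, ← sum_sub_distrib]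
      exact sum_congr rfl fun j _ => by ring
    refine absurd (mul_pos p (h i)) (not_lt.2 (e ▸ sum_nonpos fun j _ => ?_))
    by_cases k : i = j
    · rw [← k, div_mul_cancel₀ _ (tp i).ne', sub_self, mul_zero]
    · exact mul_nonpos_of_nonpos_of_nonneg (hM i j k)
        (sub_nonneg.2 ((div_le_iff₀ (tp j)).1 (hi j (mem_univ j))))
  funext j
  have := key (-a) (fun i => by simp [ha i]) j
  exact le_antisymm (key a ha j) (by simpa using this)

variable {X : Type} [AddCommGroup X] [Module ℝ X]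

lemma le_of_int {ι : Type} (J : Finset ι) (s : ι → X →ₗ[ℝ] ℝ) {H S : Submodule ℝ X} {y : X}
    (hy : y ∈ H) (h : ∀ i ∈ J, 0 < s i y) (hS : ∀ x ∈ H, (∀ i ∈ J, 0 ≤ s i x) → x ∈ S) :
    H ≤ S := by
  intro z hz
  have a : ∀ᶠ ε : ℝ in 𝓝 0, ∀ i ∈ J, 0 < s i y + ε * s i z := (eventually_all_finset J).2
    fun i hi => by
      have c : Continuous fun ε : ℝ => s i y + ε * s i z := by fun_prop
      exact c.continuousAt.eventually (lt_mem_nhds (by simpa using h i hi))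
  obtain ⟨ε, h1, h2⟩ := ((a.filter_mono nhdsWithin_le_nhds).and
    (self_mem_nhdsWithin (s := Set.Ioi (0 : ℝ)))).exists
  have b := S.sub_mem (hS (y + ε • z) (H.add_mem hy (H.smul_mem ε hz)) fun i hi => by
    simpa using (h1 i hi).le) (hS y hy fun i hi => (h i hi).le)
  rw [add_sub_cancel_left] at b
  exact (S.smul_mem_iff (ne_of_gt h2)).1 b

/-- The polytope with vertices among `V` is cut out by the inequalities `u ≤ 1`, and the pairing
of `U` and `V` is integral. -/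
structure Rf (V : Finset X) (U : Finset (X →ₗ[ℝ] ℝ)) : Prop where
  hull : convexHull ℝ (V : Set X) = {x | ∀ u ∈ U, u x ≤ 1}
  int : ∀ u ∈ U, ∀ v ∈ V, ∃ n : ℤ, u v = n

variable {V : Finset X} {U : Finset (X →ₗ[ℝ] ℝ)}

lemma Rf.le_one (h : Rf V U) {u : X →ₗ[ℝ] ℝ} (hu : u ∈ U) {v : X} (hv : v ∈ V) : u v ≤ 1 := by
  have a : v ∈ convexHull ℝ (V : Set X) := subset_convexHull ℝ _ hv
  rw [h.hull] at a
  exact a u hu

lemma Rf.cases (h : Rf V U) {u : X →ₗ[ℝ] ℝ} (hu : u ∈ U) {v : X} (hv : v ∈ V) :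
    u v = 1 ∨ u v = 0 ∨ u v ≤ -1 := by
  obtain ⟨n, e⟩ := h.int u hu v hv
  have a := h.le_one hu hv
  rw [e] at a ⊢
  have b : n ≤ 1 := by exact_mod_cast a
  have c : n = 1 ∨ n = 0 ∨ n ≤ -1 := by omega
  exact_mod_cast c

lemma Rf.bdd (h : Rf V U) (l : X →ₗ[ℝ] ℝ) {x : X} (hx : ∀ u ∈ U, u x ≤ 1) :
    l x ≤ ∑ v ∈ V, |l v| := by
  have a : x ∈ convexHull ℝ (V : Set X) := h.hull ▸ hx
  exact convexHull_min (t := {x | l x ≤ ∑ v ∈ V, |l v|}) (fun v hv => (le_abs_self _).trans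
    (single_le_sum (f := fun v => |l v|) (fun _ _ => abs_nonneg _) hv))
    (convex_halfSpace_le l.isLinear _) a

lemma Rf.rec_zero (h : Rf V U) {x : X} (hx : ∀ u ∈ U, u x ≤ 0) : x = 0 := by
  have key : ∀ l : X →ₗ[ℝ] ℝ, l x ≤ 0 := fun l => by
    by_contra c
    have p := not_le.1 c
    have q : 0 ≤ ∑ v ∈ V, |l v| := sum_nonneg fun _ _ => abs_nonneg _
    have a := h.bdd l (x := ((∑ v ∈ V, |l v| + 1) / l x) • x) fun u hu => by
      rw [map_smul, smul_eq_mul]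
      exact (mul_nonpos_of_nonneg_of_nonpos (by positivity) (hx u hu)).trans zero_le_one
    rw [map_smul, smul_eq_mul, div_mul_cancel₀ _ p.ne'] at a
    linarith
  exact (forall_dual_apply_eq_zero_iff ℝ x).1 fun l =>
    le_antisymm (key l) (by simpa using key (-l))

lemma Rf.nonneg (h : Rf V U) {F : X →ₗ[ℝ] ℝ} {x : X} (hx : ∀ u ∈ U, u x ≤ F x) : 0 ≤ F x := by
  by_contra c
  rw [h.rec_zero fun u hu => (hx u hu).trans (not_le.1 c).le, map_zero] at c
  exact c le_rfl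

lemma Rf.mem_span (h : Rf V U) {F : X →ₗ[ℝ] ℝ} {x : X} (hx : ∀ u ∈ U, u x ≤ F x) :
    x ∈ span ℝ {v | v ∈ V ∧ ∀ G ∈ U, G x = F x → G v = 1} := by
  rcases (h.nonneg hx).eq_or_lt with c | c
  · rw [h.rec_zero fun u hu => (hx u hu).trans c.ge]
    exact zero_mem _
  have a : (F x)⁻¹ • x ∈ convexHull ℝ (V : Set X) := by
    rw [h.hull]
    intro u hu
    rw [map_smul, smul_eq_mul, inv_mul_le_iff₀ c, mul_one]
    exact hx u hu
  obtain ⟨w, w0, w1, w2⟩ := Finset.mem_convexHull'.1 a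
  refine (smul_mem_iff _ (inv_ne_zero c.ne')).1 (w2 ▸ sum_mem fun v hv => ?_)
  by_cases k : w v = 0
  · rw [k, zero_smul]
    exact zero_mem _
  refine smul_mem _ _ (subset_span ⟨hv, fun G hG e => ?_⟩)
  have b : ∑ v ∈ V, w v * (1 - G v) = 0 := by
    have b1 := congrArg G w2
    rw [map_sum, map_smul, e, smul_eq_mul, inv_mul_cancel₀ c.ne'] at b1
    simp only [map_smul, smul_eq_mul] at b1
    simp only [mul_sub, mul_one, sum_sub_distrib, w1, b1, sub_self]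
  have b2 := (sum_eq_zero_iff_of_nonneg fun v hv =>
    mul_nonneg (w0 v hv) (sub_nonneg.2 (h.le_one hG hv))).1 b v hv
  exact (sub_eq_zero.1 ((mul_eq_zero.1 b2).resolve_left k)).symm

lemma Rf.span_facet (h : Rf V U) {F : X →ₗ[ℝ] ℝ} (hF : F ∈ U) {m : X}
    (hm : ∀ u ∈ U, u ≠ F → u m < F m) : ⊤ ≤ span ℝ {v | v ∈ V ∧ F v = 1} := by
  classical
  refine le_of_int (U.erase F) (fun G => F - G) (y := m) trivial
    (fun G hG => sub_pos.2 (hm G (mem_erase.1 hG).2 (mem_erase.1 hG).1)) fun x _ hx => ?_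
  refine span_mono (fun v hv => And.intro hv.1 (hv.2 F hF rfl))
    (h.mem_span (F := F) fun u hu => ?_)
  by_cases e : u = F
  · rw [e]
  · exact sub_nonneg.1 (hx u (mem_erase.2 ⟨e, hu⟩))

lemma Rf.adj (h : Rf V U) {F : X →ₗ[ℝ] ℝ} (hF : F ∈ U) {m : X}
    (hm : ∀ u ∈ U, u ≠ F → u m < F m) :
    ∃ I ⊆ U, F ∉ I ∧ (∀ x, (∀ G ∈ I, G x ≤ F x) → ∀ G ∈ U, G x ≤ F x) ∧
      ∀ G ∈ I, LinearMap.ker (F - G) ≤ span ℝ {v | v ∈ V ∧ F v = 1 ∧ G v = 1} := by
  classical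
  obtain ⟨I, h1, h2, h3⟩ := exists_min U fun G x => G x ≤ F x
  have nF : F ∉ I := fun c => (h3 F c).elim fun x hx => hx.1 le_rfl
  refine ⟨I, h1, nF, h2, fun G hG => ?_⟩
  obtain ⟨x, x1, x2⟩ := h3 G hG
  have p : ∀ G ∈ I, G m < F m := fun G hG => hm G (h1 hG) fun e => nF (e ▸ hG)
  refine le_of_int (I.erase G) (fun G => F - G) (y := (F m - G m) • x + (G x - F x) • m)
    (by simp; ring) (fun G' hG' => ?_) fun y y1 y2 => ?_
  · obtain ⟨a, b⟩ := mem_erase.1 hG'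
    have c1 := mul_nonneg (sub_pos.2 (p G hG)).le (sub_nonneg.2 (x2 G' b a))
    have c2 := mul_pos (sub_pos.2 (not_le.1 x1)) (sub_pos.2 (p G' b))
    simp only [map_add, map_smul, LinearMap.sub_apply, smul_eq_mul]
    linarith
  · have e : G y = F y := (sub_eq_zero.1 y1).symm
    refine span_mono (fun v hv => And.intro hv.1 (And.intro (hv.2 F hF rfl) (hv.2 G (h1 hG) e)))
      (h.mem_span (F := F) (h2 y fun u hu => ?_))
    by_cases k : u = G
    · rw [k, e]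
    · exact sub_nonneg.1 (y2 u (mem_erase.2 ⟨k, hu⟩))

lemma Rf.walk [FiniteDimensional ℝ X] (h : Rf V U) {F : X →ₗ[ℝ] ℝ} (hF : F ∈ U)
    {I : Finset (X →ₗ[ℝ] ℝ)} (hIU : I ⊆ U) (hI : ∀ x, (∀ G ∈ I, G x ≤ F x) → ∀ G ∈ U, G x ≤ F x)
    {m : X} (hm : ∀ u ∈ U, ∃ n : ℤ, u m = n) (hm' : ∀ G ∈ I, G m < F m) (hm0 : 0 < F m)
    {Z : Finset X} (hZ : Z ⊆ V) (hZ0 : ∀ z ∈ Z, F z = 0) (l : X →ₗ[ℝ] ℝ) (hl : ∀ z ∈ Z, 0 < l z)
    (hu : ∀ G ∈ I, ∀ z ∈ Z, ∀ z' ∈ Z, 0 < G z → 0 < G z' → z = z') :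
    ∃ B : Finset X, (∀ x ∈ B, x ∈ V ∧ F x = 1) ∧ B.card + Z.card ≤ finrank ℝ X ∧
      ∀ G ∈ I, (∀ x ∈ B, G x = 1) → ∃ z ∈ Z, 0 < G z := by
  classical
  let pt : (X → ℕ) → X := fun t => m + ∑ z ∈ Z, (t z : ℝ) • z
  have ev : ∀ (t : X → ℕ) (u : X →ₗ[ℝ] ℝ), u (pt t) = u m + ∑ z ∈ Z, t z * u z := fun t u => by
    simp [pt]
  have eF : ∀ t, F (pt t) = F m := fun t => by
    rw [ev, sum_eq_zero fun z hz => by rw [hZ0 z hz, mul_zero], add_zero]
  let S : Set ℕ := {n | ∃ t : X → ℕ, ∑ z ∈ Z, t z = n ∧ ∀ G ∈ I, G (pt t) ≤ F m}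
  have ne : S.Nonempty := ⟨0, fun _ => 0, by simp, fun G hG => by simpa [pt] using (hm' G hG).le⟩
  have bd : BddAbove S := by
    refine ⟨⌈∑ z ∈ Z, (F m * ∑ v ∈ V, |l v| - l m) / l z⌉₊, ?_⟩
    rintro _ ⟨t, rfl, ht⟩
    have a := h.bdd l (x := (F m)⁻¹ • pt t) fun u hu => by
      rw [map_smul, smul_eq_mul, inv_mul_le_iff₀ hm0, mul_one, ← eF t]
      exact hI _ (fun G hG => (eF t).symm ▸ ht G hG) u hu
    rw [map_smul, smul_eq_mul, inv_mul_le_iff₀ hm0, ev] at a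
    refine Nat.cast_le (α := ℝ).1 (le_trans ?_ (Nat.le_ceil _))
    push_cast
    refine sum_le_sum fun z hz => (le_div_iff₀ (hl z hz)).2 ?_
    have := single_le_sum (f := fun z => (t z : ℝ) * l z)
      (fun z hz => mul_nonneg (Nat.cast_nonneg _) (hl z hz).le) hz
    linarith
  obtain ⟨t, t1, t2⟩ := Nat.sSup_mem ne bd
  have act : ∀ z ∈ Z, ∃ G ∈ I, G (pt t) = F m ∧ 0 < G z := by
    intro z hz
    by_contra c
    have a : sSup S + 1 ∈ S := by
      refine ⟨fun w => t w + if w = z then 1 else 0, by simp [sum_add_distrib, t1, hz],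
        fun G hG => ?_⟩
      have e : G (pt fun w => t w + if w = z then 1 else 0) = G (pt t) + G z := by
        simp [ev, add_mul, sum_add_distrib, hz, add_assoc]
      rw [e]
      by_cases k : 0 < G z
      · have k1 : G (pt t) < F m := (t2 G hG).lt_of_ne fun e => c ⟨G, hG, e, k⟩
        obtain ⟨n1, e1⟩ := hm F hF
        obtain ⟨n2, e2⟩ := hm G (hIU hG)
        choose! n3 e3 using h.int G (hIU hG)
        have e4 : G (pt t) = ((n2 + ∑ z ∈ Z, t z * n3 z : ℤ) : ℝ) := by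
          rw [ev, e2, sum_congr rfl fun z hz => by rw [e3 z (hZ hz)]]
          push_cast
          rfl
        rw [e4, e1] at k1 ⊢
        have k2 : ((n2 + ∑ z ∈ Z, t z * n3 z + 1 : ℤ) : ℝ) ≤ n1 := by
          exact_mod_cast (by exact_mod_cast k1 : n2 + ∑ z ∈ Z, t z * n3 z < n1)
        rw [Int.cast_add _ 1, Int.cast_one] at k2
        linarith [h.le_one (hIU hG) (hZ hz)]
      · linarith [t2 G hG, not_lt.1 k]
    exact absurd (le_csSup bd a) (by omega)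
  choose! G G1 G2 G3 using act
  let Ψ : X →ₗ[ℝ] Z → ℝ := LinearMap.pi fun z => G z - F
  let Φ : (Z → ℝ) →ₗ[ℝ] X := Fintype.linearCombination ℝ fun z : Z => (z : X)
  have inj : Function.Injective (Ψ ∘ₗ Φ) := by
    rw [← LinearMap.ker_eq_bot, eq_bot_iff]
    intro a ha
    refine zmat (fun i j : Z => G i j) (fun i j e => ?_) (fun j => t j)
      (fun _ => Nat.cast_nonneg _) (fun i => ?_) a fun i => ?_
    · by_contra c
      exact e (Subtype.ext (hu _ (G1 i i.2) _ i.2 _ j.2 (G3 i i.2) (not_le.1 c)))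
    · have a1 := G2 i i.2
      rw [ev, ← sum_coe_sort] at a1
      simp only [mul_comm (G i _)]
      linarith [hm' _ (G1 i i.2)]
    · have a1 := congrFun (LinearMap.mem_ker.1 ha) i
      simpa [Ψ, Φ, Fintype.linearCombination_apply, hZ0 _ (Subtype.prop _), mul_comm] using a1
  have sur : LinearMap.range Ψ = ⊤ := LinearMap.range_eq_top.2
    (Function.Surjective.of_comp (g := Φ) (LinearMap.injective_iff_surjective.1 inj))
  have dim := Ψ.finrank_range_add_finrank_ker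
  rw [sur, finrank_top, finrank_fintype_fun_eq_card, Fintype.card_coe] at dim
  have hT := hI (pt t) fun G hG => (eF t).symm ▸ t2 G hG
  have sp := h.mem_span hT
  have : Module.Finite ℝ (span ℝ {v | v ∈ V ∧ ∀ G ∈ U, G (pt t) = F (pt t) → G v = 1}) :=
    inferInstance
  obtain ⟨B, B1, B2, B3, -⟩ := exists_finset_span_eq_linearIndepOn ℝ
    {v | v ∈ V ∧ ∀ G ∈ U, G (pt t) = F (pt t) → G v = 1}
  refine ⟨B, fun x hx => ⟨(B1 hx).1, (B1 hx).2 F hF rfl⟩, ?_, fun G' hG' a => ?_⟩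
  · have le : span ℝ {v | v ∈ V ∧ ∀ G ∈ U, G (pt t) = F (pt t) → G v = 1} ≤ LinearMap.ker Ψ := by
      refine span_le.2 fun v hv => LinearMap.mem_ker.2 (funext fun z => ?_)
      have a1 := hv.2 _ (hIU (G1 z z.2)) ((G2 z z.2).trans (eF t).symm)
      simp [Ψ, a1, hv.2 F hF rfl]
    have := finrank_mono le
    omega
  · have le : span ℝ (B : Set X) ≤ LinearMap.ker (G' - F) :=
      span_le.2 fun v hv => LinearMap.mem_ker.2 (by simp [a v hv, (B1 hv).2 F hF rfl])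
    have a1 := LinearMap.mem_ker.1 (le (B3 ▸ sp))
    rw [LinearMap.sub_apply, eF, ev] at a1
    by_contra c
    have a2 : ∑ z ∈ Z, (t z : ℝ) * G' z ≤ 0 := sum_nonpos fun z hz =>
      mul_nonpos_of_nonneg_of_nonpos (Nat.cast_nonneg _) (not_lt.1 fun k => c ⟨z, hz, k⟩)
    linarith [hm' G' hG']

end Pool.Agent.Work.MP_2a05c6_ag.T
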