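import Pool.Agent.Work.MP_2a05c6_ag.T.Main2

/-!
Sums of hexagons attain the bound.
-/

set_option autoImplicit false

noncomputable section

namespace Pool.Agent.Work.MP_2a05c6_ag.T

open Finset Module Submodule
open scoped Classical

section

variable {X : Type} [AddCommGroup X] [Module ℝ X] {V : Finset X} {U : Finset (X →ₗ[ℝ] ℝ)}

lemma Rf.cone_nonneg (h : Rf V U) {F : X →ₗ[ℝ] ℝ} (hF : F ∈ U) {x : X} (hx : ∀ u ∈ U, u x ≤ F x)
    (l : X →ₗ[ℝ] ℝ) (hl : ∀ v ∈ V, F v = 1 → 0 ≤ l v) : 0 ≤ l x := by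
  rcases (h.nonneg hx).eq_or_lt with c | c
  · rw [h.rec_zero fun u hu => (hx u hu).trans c.ge, map_zero]
  have a : (F x)⁻¹ • x ∈ convexHull ℝ (V : Set X) := by
    rw [h.hull]
    intro u hu
    rw [map_smul, smul_eq_mul, inv_mul_le_iff₀ c, mul_one]
    exact hx u hu
  obtain ⟨w, w0, w1, w2⟩ := Finset.mem_convexHull'.1 a
  have b : ∑ v ∈ V, w v * (1 - F v) = 0 := by
    have b1 := congrArg F w2
    rw [map_sum, map_smul, smul_eq_mul, inv_mul_cancel₀ c.ne'] at b1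
    simp only [map_smul, smul_eq_mul] at b1
    simp only [mul_sub, mul_one, sum_sub_distrib, w1, b1, sub_self]
  have b2 := (sum_eq_zero_iff_of_nonneg fun v hv =>
    mul_nonneg (w0 v hv) (sub_nonneg.2 (h.le_one hF hv))).1 b
  have e := congrArg l w2
  rw [map_sum, map_smul, smul_eq_mul] at e
  refine nonneg_of_mul_nonneg_right (e ▸ sum_nonneg fun v hv => ?_) (inv_pos.2 c)
  rw [map_smul, smul_eq_mul]
  rcases mul_eq_zero.1 (b2 v hv) with k | k
  · rw [k, zero_mul]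
  · exact mul_nonneg (w0 v hv) (hl v hv (sub_eq_zero.1 k).symm)

variable {ι : Type} (b : Basis ι ℝ X) {π : ι → ι}

lemma blk (h : Rf V U) (p1 : ∀ i, π i ≠ i) (p2 : ∀ i, π (π i) = i)
    (hV : ∀ v ∈ V, v = 0 ∨ ∃ i, v = b i ∨ v = -b i ∨ v = b (π i) - b i) {u : X →ₗ[ℝ] ℝ}
    (hu : u ∈ U) (i : ι) {x : X} (hx : ∀ u' ∈ U, u' x ≤ u x) (α β : ℝ)
    (c1 : u (b i) = 1 → 0 ≤ α) (c2 : u (b i) = -1 → α ≤ 0) (c3 : u (b (π i)) = 1 → 0 ≤ β)
    (c4 : u (b (π i)) = -1 → β ≤ 0) (c5 : u (b (π i)) - u (b i) = 1 → α ≤ β)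
    (c6 : u (b i) - u (b (π i)) = 1 → β ≤ α) : 0 ≤ α * b.coord i x + β * b.coord (π i) x := by
  refine h.cone_nonneg hu hx (α • b.coord i + β • b.coord (π i)) fun v hv k => ?_
  have n1 := p1 i
  have n2 := n1.symm
  rcases hV v hv with rfl | ⟨j, e⟩
  · simp
  by_cases a : j = i
  · subst a
    rcases e with rfl | rfl | rfl
    · simpa [n1, n2] using c1 k
    · simpa [n1, n2] using c2 (by rw [map_neg] at k; linarith)
    · simpa [n1, n2] using c5 (by rwa [map_sub] at k)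
  by_cases a' : j = π i
  · subst a'
    rcases e with rfl | rfl | rfl
    · simpa [n1, n2] using c3 k
    · simpa [n1, n2] using c4 (by rw [map_neg] at k; linarith)
    · rw [p2] at k ⊢
      simpa [n1, n2] using c6 (by rwa [map_sub] at k)
  have a1 : π j ≠ i := fun q => a' (by rw [← q, p2])
  have a2 : π j ≠ π i := fun q => a (by rw [← p2 j, q, p2])
  rcases e with rfl | rfl | rfl <;> simp [a, a', a1, a2]

lemma pl (h : Rf V U) (p1 : ∀ i, π i ≠ i) (p2 : ∀ i, π (π i) = i)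
    (hV : ∀ v ∈ V, v = 0 ∨ ∃ i, v = b i ∨ v = -b i ∨ v = b (π i) - b i)
    (hV' : ∀ i, b i ∈ V ∧ -b i ∈ V ∧ b (π i) - b i ∈ V) {u : X →ₗ[ℝ] ℝ} (hu : u ∈ U) (i : ι) :
    (∃ l : X →ₗ[ℝ] ℝ, ∀ x, (∀ u' ∈ U, u' x ≤ u x) → max (b.coord i x) 0 = l x) ∧
    ∃ l : X →ₗ[ℝ] ℝ, ∀ x, (∀ u' ∈ U, u' x ≤ u x) →
      max (b.coord i x) (max 0 (-b.coord (π i) x)) = l x := by
  have a1 := h.le_one hu (hV' i).2.1
  have a2 := h.le_one hu (hV' (π i)).2.1
  have a3 := h.le_one hu (hV' i).2.2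
  have a4 := h.le_one hu (hV' (π i)).2.2
  rw [p2] at a4
  rw [map_neg] at a1 a2
  rw [map_sub] at a3 a4
  have k := fun x hx => blk b h p1 p2 hV hu i (x := x) hx
  have A : u (b i) ≠ -1 → u (b (π i)) - u (b i) ≠ 1 → ∀ x, (∀ u' ∈ U, u' x ≤ u x) →
      0 ≤ b.coord i x := fun q r x hx => by
    simpa using k x hx 1 0 (by simp) (by simp [q]) (by simp) (by simp) (by simp [r]) (by simp)
  have A' : u (b i) ≠ 1 → u (b i) - u (b (π i)) ≠ 1 → ∀ x, (∀ u' ∈ U, u' x ≤ u x) →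
      b.coord i x ≤ 0 := fun q r x hx => by
    simpa using k x hx (-1) 0 (by simp [q]) (by simp) (by simp) (by simp) (by simp) (by simp [r])
  have B : u (b (π i)) ≠ -1 → u (b i) - u (b (π i)) ≠ 1 → ∀ x, (∀ u' ∈ U, u' x ≤ u x) →
      0 ≤ b.coord (π i) x := fun q r x hx => by
    simpa using k x hx 0 1 (by simp) (by simp) (by simp) (by simp [q]) (by simp) (by simp [r])
  have B' : u (b (π i)) ≠ 1 → u (b (π i)) - u (b i) ≠ 1 → ∀ x, (∀ u' ∈ U, u' x ≤ u x) →
      b.coord (π i) x ≤ 0 := fun q r x hx => by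
    simpa using k x hx 0 (-1) (by simp) (by simp) (by simp [q]) (by simp) (by simp [r]) (by simp)
  have C : u (b i) ≠ -1 → u (b (π i)) ≠ -1 → ∀ x, (∀ u' ∈ U, u' x ≤ u x) →
      0 ≤ b.coord i x + b.coord (π i) x := fun q r x hx => by
    linarith [k x hx 1 1 (by simp) (by simp [q]) (by simp) (by simp [r]) (by simp) (by simp)]
  have C' : u (b i) ≠ 1 → u (b (π i)) ≠ 1 → ∀ x, (∀ u' ∈ U, u' x ≤ u x) →
      b.coord i x + b.coord (π i) x ≤ 0 := fun q r x hx => by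
    linarith [k x hx (-1) (-1) (by simp [q]) (by simp) (by simp [r]) (by simp) (by simp) (by simp)]
  constructor
  · by_cases q : u (b i) = 1 ∨ u (b i) - u (b (π i)) = 1
    · exact ⟨b.coord i, fun x hx => max_eq_left (A (fun r => by rcases q with q | q <;> linarith)
        (fun r => by rcases q with q | q <;> linarith [h.le_one hu (hV' (π i)).1]) x hx)⟩
    · exact ⟨0, fun x hx => max_eq_right (A' (fun r => q (Or.inl r)) (fun r => q (Or.inr r)) x hx)⟩
  · by_cases q : u (b (π i)) - u (b i) = 1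
    · have r1 : u (b i) ≠ 1 := fun r => by linarith [h.le_one hu (hV' (π i)).1]
      have r2 : u (b (π i)) ≠ -1 := fun r => by linarith
      have r3 : u (b i) - u (b (π i)) ≠ 1 := fun r => by linarith
      exact ⟨0, fun x hx => by
        rw [max_eq_left (neg_nonpos.2 (B r2 r3 x hx)), max_eq_right (A' r1 r3 x hx)]
        rfl⟩
    by_cases q' : u (b i) = -1 ∨ u (b (π i)) = -1
    · have r1 : u (b i) ≠ 1 := fun r => by rcases q' with q' | q' <;> linarith
      have r2 : u (b (π i)) ≠ 1 := fun r => by rcases q' with q' | q' <;> linarith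
      exact ⟨-b.coord (π i), fun x hx => by
        rw [max_eq_right (neg_nonneg.2 (B' r2 q x hx)), max_eq_right (by linarith [C' r1 r2 x hx])]
        rfl⟩
    · exact ⟨b.coord i, fun x hx => max_eq_left (max_le (A (fun r => q' (Or.inl r)) q x hx)
        (by linarith [C (fun r => q' (Or.inl r)) (fun r => q' (Or.inr r)) x hx]))⟩

lemma indep [Fintype ι] (p1 : ∀ i, π i ≠ i) (p2 : ∀ i, π (π i) = i) (α β : ι → ℝ)
    (l : X →ₗ[ℝ] ℝ) (hl : ∀ x, ∑ i, α i * max (b.coord i x) 0 +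
      ∑ i, β i * max (b.coord i x) (max 0 (-b.coord (π i) x)) = l x) (i : ι) :
    α i = 0 ∧ β i = 0 := by
  have n1 := p1 i
  have n2 := n1.symm
  have e : ∀ A B : ℝ, α i * max A 0 + α (π i) * max B 0 + (β i * max A (max 0 (-B)) +
      β (π i) * max B (max 0 (-A))) = A * l (b i) + B * l (b (π i)) := by
    intro A B
    have a := hl (A • b i + B • b (π i))
    have z : ∀ c, c ≠ i ∧ c ≠ π i → b.coord c (A • b i + B • b (π i)) = 0 := fun c hc => by
      simp [hc.1.symm, hc.2.symm]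
    rw [sum_eq_add_of_mem i (π i) (mem_univ _) (mem_univ _) n2 fun c _ hc => by
        rw [z c hc, max_self, mul_zero],
      sum_eq_add_of_mem i (π i) (mem_univ _) (mem_univ _) n2 fun c _ hc => by
        rw [z c hc, z (π c) ⟨fun q => hc.2 (by rw [← q, p2]),
          fun q => hc.1 (by rw [← p2 c, q, p2])⟩]
        simp, p2] at a
    simpa [n1, n2] using a
  have e1 := e 1 0
  have e2 := e (-1) 0
  have e3 := e 0 1
  have e4 := e 0 (-1)
  have e5 := e 1 (-1)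
  have e6 := e (-1) 1
  norm_num at e1 e2 e3 e4 e5 e6
  constructor <;> linarith

end

variable {d : ℕ}

theorem pic_conv (hd : 1 ≤ d) {U : Finset (Fin d → ℤ)} (h : IsReflexive U) (hH : IsHexagonSum U) :
    Module.rank ℝ (PicR U) = 2 * d := by
  refine le_antisymm (pic_bound hd h) ?_
  obtain ⟨W, π, W1, W2, W3, W4⟩ := hH
  obtain ⟨V₁, hV, hm⟩ := saturate h
  have rf := rf_of hV
  have sp : ⊤ ≤ span ℝ (Set.range fun x : W => cst (x : Fin d → ℤ)) := by
    rw [← (Pi.basisFun ℝ (Fin d)).span_eq, span_le]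
    rintro _ ⟨i, rfl⟩
    have a : cst (Pi.single i 1) ∈ span ℤ (cst '' (W : Set (Fin d → ℤ))) := by
      rw [span_image, W2]
      exact mem_map_of_mem mem_top
    have e : Pi.basisFun ℝ (Fin d) i = cst (Pi.single i 1) := funext fun j => by
      by_cases k : j = i <;> simp [cst, k]
    rw [e]
    exact span_mono (by rintro _ ⟨x, hx, rfl⟩; exact ⟨⟨x, hx⟩, rfl⟩) (span_le_restrictScalars ℤ ℝ _ a)
  obtain ⟨b, hb⟩ : ∃ b : Basis W ℝ (Fin d → ℝ), ∀ x, b x = cst (x : Fin d → ℤ) :=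
    ⟨basisOfTopLeSpanOfCardEqFinrank _ sp (by simp [W1]), fun x => by simp⟩
  let p : W → W := fun x => ⟨π x, (W3 x x.2).1⟩
  have p1 : ∀ i, p i ≠ i := fun i k => (W3 i i.2).2.1 (congrArg Subtype.val k)
  have p2 : ∀ i, p (p i) = i := fun i => Subtype.ext (W3 i i.2).2.2
  have h1 : ∀ v ∈ V₁.image cst, v = 0 ∨ ∃ i, v = b i ∨ v = -b i ∨ v = b (p i) - b i := by
    intro v hv
    obtain ⟨v, hv', rfl⟩ := mem_image.1 hv
    refine ((W4 v).1 ((hm v).1 hv')).imp (fun a => by rw [a, map_zero]) fun ⟨x, hx, a⟩ =>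
      ⟨⟨x, hx⟩, ?_⟩
    rw [hb, hb, ← map_neg, ← map_sub]
    exact a.imp (congrArg _) (Or.imp (congrArg _) (congrArg _))
  have h2 : ∀ i, b i ∈ V₁.image cst ∧ -b i ∈ V₁.image cst ∧ b (p i) - b i ∈ V₁.image cst := by
    intro i
    rw [hb, hb, ← map_neg, ← map_sub]
    exact ⟨mem_image_of_mem _ ((hm _).2 ((W4 _).2 (Or.inr ⟨i, i.2, Or.inl rfl⟩))),
      mem_image_of_mem _ ((hm _).2 ((W4 _).2 (Or.inr ⟨i, i.2, Or.inr (Or.inl rfl)⟩))),
      mem_image_of_mem _ ((hm _).2 ((W4 _).2 (Or.inr ⟨i, i.2, Or.inr (Or.inr rfl)⟩)))⟩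
  have tr : ∀ u x, (∀ u' ∈ U, pair u' x ≤ pair u x) → ∀ u' ∈ U.image form, u' x ≤ form u x :=
    fun u x k u' hu' => by
      obtain ⟨u', a, rfl⟩ := mem_image.1 hu'
      rw [form_apply, form_apply]
      exact k u' a
  let f : W ⊕ W → SupportFns U := Sum.elim
    (fun i => ⟨fun x => max (b.coord i x) 0, fun u hu =>
      (pl b rf p1 p2 h1 h2 (mem_image_of_mem _ hu) i).1.imp fun _ k x hx => k x (tr u x hx)⟩)
    (fun i => ⟨fun x => max (b.coord i x) (max 0 (-b.coord (p i) x)), fun u hu =>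
      (pl b rf p1 p2 h1 h2 (mem_image_of_mem _ hu) i).2.imp fun _ k x hx => k x (tr u x hx)⟩)
  have li : LinearIndependent ℝ fun k =>
      ((LinearFns d).submoduleOf (SupportFns U)).mkQ (f k) := by
    refine Fintype.linearIndependent_iff.2 fun c hc => ?_
    have a : ((LinearFns d).submoduleOf (SupportFns U)).mkQ (∑ k, c k • f k) = 0 := by
      simpa only [map_sum, map_smul] using hc
    obtain ⟨l, hl⟩ := (Submodule.Quotient.mk_eq_zero _).1 a
    have e := indep b p1 p2 (fun i => c (Sum.inl i)) (fun i => c (Sum.inr i)) l fun x => by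
      simpa [f, Fintype.sum_sum_type] using congrFun hl x
    rintro (i | i)
    · exact (e i).1
    · exact (e i).2
  have a := li.cardinal_le_rank
  rw [Cardinal.mk_fintype, Fintype.card_sum, Fintype.card_coe, W1, ← two_mul] at a
  exact_mod_cast a

end Pool.Agent.Work.MP_2a05c6_ag.T
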