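import Pool.Agent.Work.MP_2a05c6_ag.T.Cone

/-!
The special facet argument for a configuration that is linear on every facet.
-/

set_option autoImplicit false

noncomputable section

namespace Pool.Agent.Work.MP_2a05c6_ag.T

open Finset Module Submodule

variable {X E : Type} [AddCommGroup X] [Module ℝ X] [AddCommGroup E] [Module ℝ E]

lemma drop [FiniteDimensional ℝ E] [DecidableEq X] (A : Submodule ℝ E) (e : X → E)
    (Z : Finset X) : (∃ z ∈ Z, e z ∈ A ⊔ span ℝ (e '' (Z.erase z : Finset X))) ∨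
      finrank ℝ (A ⊔ span ℝ (e '' Z) : Submodule ℝ E) = finrank ℝ A + Z.card := by
  induction Z using Finset.induction_on with
  | empty => right; rw [coe_empty, Set.image_empty, span_empty, sup_bot_eq, card_empty, add_zero]
  | insert a Z ha ih =>
    by_cases k : e a ∈ A ⊔ span ℝ (e '' Z)
    · exact Or.inl ⟨a, mem_insert_self _ _, by rwa [erase_insert ha]⟩
    rcases ih with ⟨z, hz, c⟩ | c
    · exact Or.inl ⟨z, mem_insert_of_mem hz, sup_le_sup_left (span_mono (Set.image_mono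
        (coe_subset.2 (erase_subset_erase z (subset_insert a Z))))) A c⟩
    · right
      rw [coe_insert, Set.image_insert_eq, span_insert, sup_comm (span ℝ {e a}), ← sup_assoc,
        finrank_sup_span_singleton k, c, card_insert_of_notMem ha, add_assoc]

lemma erase_le [DecidableEq X] {A : Submodule ℝ E} {e : X → E} {Z : Finset X} {z : X}
    (h : e z ∈ A ⊔ span ℝ (e '' (Z.erase z : Finset X))) :
    A ⊔ span ℝ (e '' Z) ≤ A ⊔ span ℝ (e '' (Z.erase z : Finset X)) := by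
  refine sup_le le_sup_left (span_le.2 ?_)
  rintro _ ⟨y, hy, rfl⟩
  by_cases k : y = z
  · exact k ▸ h
  · exact mem_sup_right (subset_span ⟨y, mem_coe.2 (mem_erase.2 ⟨k, hy⟩), rfl⟩)

variable {V : Finset X} {U : Finset (X →ₗ[ℝ] ℝ)}

theorem core_min [FiniteDimensional ℝ X] [FiniteDimensional ℝ E] (h : Rf V U) (hU : U.Nonempty)
    (hmin : ∀ F ∈ U, ∃ m, ∀ u ∈ U, u ≠ F → u m < F m) (e : X → E) (π : E →ₗ[ℝ] X)
    (hπ : ∀ v ∈ V, π (e v) = v) (h0 : e 0 = 0)
    (hL : ∀ u ∈ U, ∃ lam : X →ₗ[ℝ] E, ∀ v ∈ V, u v = 1 → e v = lam v) :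
    finrank ℝ (span ℝ (e '' V)) ≤ 3 * finrank ℝ X := by
  classical
  choose! lam hlam using hL
  obtain ⟨T, hT⟩ : ∃ T, T = span ℝ (e '' V) := ⟨_, rfl⟩
  rw [← hT]
  have sf : ∀ F ∈ U, ⊤ ≤ span ℝ {v | v ∈ V ∧ F v = 1} := fun F hF =>
    (hmin F hF).elim fun m hm => h.span_facet hF hm
  have rg : ∀ F ∈ U, ∀ S : Submodule ℝ E, (∀ v ∈ V, F v = 1 → e v ∈ S) →
      LinearMap.range (lam F) ≤ S := by
    rintro F hF S hS _ ⟨x, rfl⟩
    exact span_le.2 (fun v hv => by
      rw [SetLike.mem_coe, mem_comap, ← hlam F hF v hv.1 hv.2]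
      exact hS v hv.1 hv.2) (sf F hF (mem_top (x := x))) |> mem_comap.1
  have dm : ∀ F ∈ U, finrank ℝ (LinearMap.range (lam F)) = finrank ℝ X := fun F hF => by
    refine LinearMap.finrank_range_of_inj (Function.Injective.of_comp (f := π) ?_)
    have : π ∘ₗ lam F = LinearMap.id := LinearMap.ext_on (eq_top_iff.2 (sf F hF)) fun v hv => by
      rw [LinearMap.comp_apply, ← hlam F hF v hv.1 hv.2, hπ v hv.1, LinearMap.id_apply]
    exact fun x y k => by
      rw [← LinearMap.id_apply (R := ℝ) x, ← this, ← LinearMap.id_apply (R := ℝ) y, ← this]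
      exact k
  let Sp : (X →ₗ[ℝ] ℝ) → Finset X → Prop := fun F Y =>
    T ≤ LinearMap.range (lam F) ⊔ span ℝ (e '' Y)
  have lo : ∀ F ∈ U, ∀ Y, Sp F Y → finrank ℝ T ≤ finrank ℝ X + Y.card := fun F hF Y k => by
    have a := (finrank_mono k).trans (finrank_add_le_finrank_add_finrank _ _)
    have b : finrank ℝ (span ℝ (e '' Y)) ≤ Y.card := by
      rw [← coe_image]
      exact (finrank_span_finset_le_card _).trans card_image_le
    rw [dm F hF] at a
    omega
  have dr : ∀ F ∈ U, ∀ Z ⊆ V, Sp F Z → finrank ℝ T < finrank ℝ X + Z.card →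
      ∃ z ∈ Z, Sp F (Z.erase z) := fun F hF Z hZ k c => by
    rcases drop (LinearMap.range (lam F)) e Z with ⟨z, hz, a⟩ | a
    · exact ⟨z, hz, k.trans (erase_le a)⟩
    · have b : LinearMap.range (lam F) ⊔ span ℝ (e '' Z) ≤ T := hT ▸ sup_le
        (rg F hF _ fun v hv _ => subset_span ⟨v, hv, rfl⟩)
        (span_mono (Set.image_mono (coe_subset.2 hZ)))
      have := finrank_mono b
      rw [a, dm F hF] at this
      omega
  obtain ⟨⟨F, Y⟩, hp, hmax⟩ := ((U ×ˢ V.powerset).filter fun p =>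
    Sp p.1 p.2 ∧ finrank ℝ X + p.2.card ≤ finrank ℝ T).exists_max_image
      (fun p => p.1 (∑ y ∈ p.2, y)) (by
        obtain ⟨F, hF⟩ := hU
        obtain ⟨Y, hY, hm⟩ := (V.powerset.filter (Sp F)).exists_min_image card
          ⟨V, mem_filter.2 ⟨mem_powerset_self V, hT.le.trans le_sup_right⟩⟩
        obtain ⟨a, b⟩ := mem_filter.1 hY
        refine ⟨(F, Y), mem_filter.2 ⟨mem_product.2 ⟨hF, a⟩, b, not_lt.1 fun c => ?_⟩⟩
        obtain ⟨z, hz, k⟩ := dr F hF Y (mem_powerset.1 a) b c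
        exact absurd (card_erase_lt_of_mem hz) (not_lt.2 (hm _ (mem_filter.2 ⟨mem_powerset.2
          ((erase_subset z Y).trans (mem_powerset.1 a)), k⟩))))
  obtain ⟨hp1, hS, hc⟩ := mem_filter.1 hp
  obtain ⟨hF, hY⟩ := mem_product.1 hp1
  dsimp only at hF hY hS hc hmax
  rw [mem_powerset] at hY
  have irr : ∀ y ∈ Y, e y ∉ LinearMap.range (lam F) ⊔ span ℝ (e '' (Y.erase y : Finset X)) := by
    intro y hy c
    have a := lo F hF _ (hS.trans (erase_le c))
    have b := card_erase_lt_of_mem hy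
    omega
  have y1 : ∀ y ∈ Y, F y ≠ 1 := fun y hy c =>
    irr y hy (mem_sup_left ⟨y, (hlam F hF y (hY hy) c).symm⟩)
  have y0 : ∀ y ∈ Y, y ≠ 0 := fun y hy c => irr y hy (by rw [c, h0]; exact zero_mem _)
  obtain ⟨m₀, hm₀⟩ := hmin F hF
  obtain ⟨I, I1, I2, I3, I4⟩ := h.adj hF hm₀
  have ag : ∀ G ∈ I, ∀ x, F x = G x → lam F x = lam G x := fun G hG x hx =>
    LinearMap.eqOn_span (fun v hv => by
      rw [← hlam F hF v hv.1 hv.2.1, hlam G (I1 hG) v hv.1 hv.2.2])
      (I4 G hG (LinearMap.mem_ker.2 (sub_eq_zero.2 hx)))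
  have one : ∀ G ∈ I, ∀ x ∈ V, F x = 1 → G x ≠ 1 →
      G (∑ y ∈ Y, y) + G x - 1 ≤ F (∑ y ∈ Y, y) := by
    intro G hG x hx x1 x2
    have nx : x ∉ Y := fun c => y1 x c x1
    have a : Sp G (insert x Y) := by
      refine hS.trans (sup_le ?_ ((span_mono (Set.image_mono
        (coe_subset.2 (subset_insert x Y)))).trans le_sup_right))
      rintro _ ⟨w, rfl⟩
      have p : 1 - G x ≠ 0 := sub_ne_zero.2 x2.symm
      have b := ag G hG (w - ((F w - G w) / (1 - G x)) • x) (by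
        simp only [map_sub, map_smul, smul_eq_mul, x1]
        field_simp
        ring)
      rw [map_sub (lam F), map_smul, sub_eq_iff_eq_add, ← hlam F hF x hx x1] at b
      rw [b]
      exact add_mem (mem_sup_left ⟨_, rfl⟩) (mem_sup_right (smul_mem _ _
        (subset_span ⟨x, mem_coe.2 (mem_insert_self x Y), rfl⟩)))
    have l0 := lo F hF Y hS
    obtain ⟨z, hz, k⟩ := dr G (I1 hG) _ (insert_subset hx hY) a (by
      rw [card_insert_of_notMem nx]; omega)
    have b := hmax (G, (insert x Y).erase z) (mem_filter.2 ⟨mem_product.2 ⟨I1 hG,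
      mem_powerset.2 ((erase_subset _ _).trans (insert_subset hx hY))⟩, k, by
        rw [card_erase_of_mem hz, card_insert_of_notMem nx]; exact hc⟩)
    have c := congrArg G (add_sum_erase (insert x Y) (fun y => y) hz)
    rw [sum_insert nx, map_add, map_add] at c
    dsimp only at b
    linarith [h.le_one (I1 hG) (insert_subset hx hY hz)]
  have two : ∀ G ∈ I, ∀ z ∈ Y.filter (F · = 0), ∀ z' ∈ Y.filter (F · = 0), 0 < G z → 0 < G z' →
      z = z' := by
    intro G hG z hz z' hz' p p'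
    obtain ⟨a, b⟩ := mem_filter.1 hz
    obtain ⟨a', b'⟩ := mem_filter.1 hz'
    have q : ∀ y ∈ Y, 0 < G y → G y = 1 := fun y hy k => by
      rcases h.cases (I1 hG) (hY hy) with c | c | c <;> linarith
    by_contra c
    have k := ag G hG (z - z') (by rw [map_sub, map_sub, b, b', q z a p, q z' a' p']; simp)
    rw [map_sub (lam G), ← hlam G (I1 hG) z (hY a) (q z a p),
      ← hlam G (I1 hG) z' (hY a') (q z' a' p'), eq_sub_iff_add_eq] at k
    exact irr z a (k ▸ add_mem (mem_sup_left ⟨_, rfl⟩) (mem_sup_right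
      (subset_span ⟨z', mem_coe.2 (mem_erase.2 ⟨Ne.symm c, a'⟩), rfl⟩)))
  obtain ⟨l, hl⟩ := exists_dual_forall_apply_ne_zero (K := ℝ) (fun y : Y => (y : X))
    fun y => y0 y y.2
  rcases Nat.eq_zero_or_pos (V.filter (F · = 1)).card with c0 | c0
  · have a := sf F hF
    have b : {v | v ∈ V ∧ F v = 1} = ∅ := Set.eq_empty_iff_forall_notMem.2 fun v hv =>
      absurd (c0 ▸ card_pos.2 ⟨v, mem_filter.2 ⟨hv.1, hv.2⟩⟩ : 0 < 0) (lt_irrefl 0)
    rw [b, span_empty] at a
    have c : Y = ∅ := eq_empty_of_forall_notMem fun y hy => y0 y hy (a (mem_top (x := y)))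
    have := lo F hF Y hS
    rw [c, card_empty] at this
    omega
  have m1 : ∀ u ∈ U, ∃ n : ℤ, u (∑ v ∈ V.filter (F · = 1), v) = n := fun u hu => by
    choose! n hn using h.int u hu
    exact ⟨∑ v ∈ V.filter (F · = 1), n v, by
      rw [map_sum, Int.cast_sum]
      exact sum_congr rfl fun v hv => hn v (mem_filter.1 hv).1⟩
  have m2 : ∀ G ∈ I, G (∑ v ∈ V.filter (F · = 1), v) < F (∑ v ∈ V.filter (F · = 1), v) := by
    intro G hG
    rw [map_sum, map_sum]
    refine sum_lt_sum (fun v hv => (mem_filter.1 hv).2.symm ▸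
      h.le_one (I1 hG) (mem_filter.1 hv).1) ?_
    by_contra c
    refine I2 (LinearMap.ext_on (eq_top_iff.2 (sf F hF)) (f := G) (g := F) (fun v hv => ?_) ▸ hG)
    exact le_antisymm (hv.2.symm ▸ h.le_one (I1 hG) hv.1)
      (not_lt.1 fun k => c ⟨v, mem_filter.2 hv, k⟩)
  have m3 : 0 < F (∑ v ∈ V.filter (F · = 1), v) := by
    rw [map_sum, sum_congr rfl fun v hv => (mem_filter.1 hv).2]
    simpa using c0
  have s1 : (Y.filter (F · = 0)).filter (0 < l ·) ⊆ Y.filter (F · = 0) := filter_subset _ _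
  have s2 : (Y.filter (F · = 0)).filter (¬ 0 < l ·) ⊆ Y.filter (F · = 0) := filter_subset _ _
  obtain ⟨B, B1, B2, B3⟩ := h.walk hF I1 I3 m1 m2 m3 ((s1.trans (filter_subset _ _)).trans hY)
    (fun z hz => (mem_filter.1 (s1 hz)).2) l (fun z hz => (mem_filter.1 hz).2)
    fun G hG z hz z' hz' => two G hG z (s1 hz) z' (s1 hz')
  obtain ⟨B', B1', B2', B3'⟩ := h.walk hF I1 I3 m1 m2 m3 ((s2.trans (filter_subset _ _)).trans hY)
    (fun z hz => (mem_filter.1 (s2 hz)).2) (-l) (fun z hz => neg_pos.2 (lt_of_le_of_ne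
      (not_lt.1 (mem_filter.1 hz).2) (hl ⟨z, (mem_filter.1 (s2 hz)).1⟩)))
    fun G hG z hz z' hz' => two G hG z (s2 hz) z' (s2 hz')
  have sl : ∀ G ∈ I, ∀ C : Finset X, (∀ x ∈ C, x ∈ V ∧ F x = 1) →
      G (∑ x ∈ C, x) ≤ F (∑ x ∈ C, x) ∧
        ∀ x ∈ C, G (∑ x ∈ C, x) + (1 - G x) ≤ F (∑ x ∈ C, x) := by
    intro G hG C hC
    have a : F (∑ x ∈ C, x) - G (∑ x ∈ C, x) = ∑ x ∈ C, (1 - G x) := by
      rw [map_sum, map_sum, ← sum_sub_distrib]
      exact sum_congr rfl fun x hx => by rw [(hC x hx).2]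
    have b : ∀ x ∈ C, 0 ≤ 1 - G x := fun x hx => sub_nonneg.2 (h.le_one (I1 hG) (hC x hx).1)
    exact ⟨by linarith [sum_nonneg b], fun x hx => by linarith [single_le_sum b hx]⟩
  have fin := h.nonneg (I3 (∑ y ∈ Y, y + ∑ x ∈ B, x + ∑ x ∈ B', x) fun G hG => by
    simp only [map_add]
    by_cases k : ∀ x ∈ B, G x = 1
    · by_cases k' : ∀ x ∈ B', G x = 1
      · obtain ⟨z, hz, p⟩ := B3 G hG k
        obtain ⟨z', hz', p'⟩ := B3' G hG k'
        exact absurd (two G hG z (s1 hz) z' (s2 hz') p p' ▸ (mem_filter.1 hz).2)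
          (mem_filter.1 hz').2
      · push Not at k'
        obtain ⟨x, hx, p⟩ := k'
        linarith [one G hG x (B1' x hx).1 (B1' x hx).2 p, (sl G hG B B1).1,
          (sl G hG B' B1').2 x hx]
    · push Not at k
      obtain ⟨x, hx, p⟩ := k
      linarith [one G hG x (B1 x hx).1 (B1 x hx).2 p, (sl G hG B B1).2 x hx, (sl G hG B' B1').1])
  have f1 : ∀ C : Finset X, (∀ x ∈ C, x ∈ V ∧ F x = 1) → F (∑ x ∈ C, x) = C.card := fun C hC => by
    rw [map_sum, sum_congr rfl fun v hv => (hC v hv).2]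
    simp
  have f2 : F (∑ y ∈ Y, y) ≤ -((Y.filter (¬ F · = 0)).card : ℝ) := by
    rw [map_sum, ← sum_filter_add_sum_filter_not Y (F · = 0),
      sum_eq_zero fun y hy => (mem_filter.1 hy).2, zero_add]
    have := sum_le_sum (s := Y.filter (¬ F · = 0)) (f := fun y => F y) (g := fun _ => -1)
      fun y hy => ((h.cases hF (hY (mem_filter.1 hy).1)).resolve_left
        (y1 y (mem_filter.1 hy).1)).resolve_left (mem_filter.1 hy).2
    simpa using this
  rw [map_add, map_add, f1 B B1, f1 B' B1'] at fin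
  have f3 : (Y.filter (¬ F · = 0)).card ≤ B.card + B'.card := by
    exact_mod_cast (by linarith : ((Y.filter (¬ F · = 0)).card : ℝ) ≤ B.card + B'.card)
  have f4 := card_filter_add_card_filter_not (s := Y) (F · = 0)
  have f5 := card_filter_add_card_filter_not (s := Y.filter (F · = 0)) (0 < l ·)
  have := lo F hF Y hS
  omega

theorem core [FiniteDimensional ℝ X] [Nontrivial X] [FiniteDimensional ℝ E] (h : Rf V U)
    (e : X → E) (π : E →ₗ[ℝ] X) (hπ : ∀ v ∈ V, π (e v) = v) (h0 : e 0 = 0)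
    (hL : ∀ u ∈ U, ∃ lam : X →ₗ[ℝ] E, ∀ v ∈ V, u v = 1 → e v = lam v) :
    finrank ℝ (span ℝ (e '' V)) ≤ 3 * finrank ℝ X := by
  obtain ⟨I, h1, h2, h3⟩ := exists_min U fun u x => u x ≤ 1
  have h' : Rf V I := ⟨h.hull.trans (Set.ext fun x => ⟨fun k u hu => k u (h1 hu), h2 x⟩),
    fun u hu => h.int u (h1 hu)⟩
  refine core_min h' ?_ (fun F hF => ?_) e π hπ h0 fun u hu => hL u (h1 hu)
  · obtain ⟨x, hx⟩ := exists_ne (0 : X)
    by_contra c
    exact hx (h'.rec_zero fun u hu => absurd ⟨u, hu⟩ c)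
  · obtain ⟨x, a, b⟩ := h3 F hF
    exact ⟨x, fun u hu k => (b u hu k).trans_lt (not_le.1 a)⟩

end Pool.Agent.Work.MP_2a05c6_ag.T
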