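import Mathlib

set_option autoImplicit false

namespace Pool.Agent.Work.MP_2a05c6_ag.T

/-- The pairing of an integer vector with a real vector. -/
def pair {d : ℕ} (u : Fin d → ℤ) (x : Fin d → ℝ) : ℝ := ∑ i, (u i : ℝ) * x i

/-- The set cut out by the inequalities `⟨u, x⟩ ≤ 1`, `u ∈ U`, is the convex hull of finitely many
integer points: it is a reflexive polytope, and the convex hull of `U` is its dual. -/
def IsReflexive {d : ℕ} (U : Finset (Fin d → ℤ)) : Prop :=
  ∃ V : Finset (Fin d → ℤ),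
    convexHull ℝ ((fun (v : Fin d → ℤ) (i : Fin d) => (v i : ℝ)) '' V) =
      {x | ∀ u ∈ U, pair u x ≤ 1}

/-- The functions that are linear on every cone `{x | ⟨u, x⟩ is the largest of the ⟨u', x⟩}`, that
is, on the cone over every face `⟨u, x⟩ = 1`: the torus invariant real Cartier divisors. -/
def SupportFns {d : ℕ} (U : Finset (Fin d → ℤ)) : Submodule ℝ ((Fin d → ℝ) → ℝ) where
  carrier := {φ | ∀ u ∈ U, ∃ l : (Fin d → ℝ) →ₗ[ℝ] ℝ,
    ∀ x, (∀ u' ∈ U, pair u' x ≤ pair u x) → φ x = l x}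
  add_mem' := fun ha hb u hu => (ha u hu).elim fun l hl => (hb u hu).elim fun l' hl' =>
    ⟨l + l', fun x hx => congrArg₂ (· + ·) (hl x hx) (hl' x hx)⟩
  zero_mem' := fun _ _ => ⟨0, fun _ _ => rfl⟩
  smul_mem' := fun c _ ha u hu => (ha u hu).elim fun l hl =>
    ⟨c • l, fun x hx => congrArg (c • ·) (hl x hx)⟩

/-- The globally linear functions: the principal divisors. -/
def LinearFns (d : ℕ) : Submodule ℝ ((Fin d → ℝ) → ℝ) where
  carrier := {φ | ∃ l : (Fin d → ℝ) →ₗ[ℝ] ℝ, φ = l}
  add_mem' := fun ha hb => ha.elim fun l hl => hb.elim fun l' hl' =>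
    ⟨l + l', congrArg₂ (· + ·) hl hl'⟩
  zero_mem' := ⟨0, rfl⟩
  smul_mem' := fun c _ ha => ha.elim fun l hl => ⟨c • l, congrArg (c • ·) hl⟩

/-- The real Picard group of the toric variety of the fan over the faces: support functions modulo
linear functions. -/
abbrev PicR {d : ℕ} (U : Finset (Fin d → ℤ)) : Type :=
  SupportFns U ⧸ (LinearFns d).submoduleOf (SupportFns U)

end Pool.Agent.Work.MP_2a05c6_ag.T
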