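import Pool.Agent.Work.MP_2a05c6_ag.T.Defs

set_option autoImplicit false

namespace Pool.Agent.Work.MP_2a05c6_ag.T

/-- There are a basis `W` of the lattice and a fixed point free involution `π` of `W` such that the
integer points of the polytope are `0` and `x`, `-x`, `π x - x` for `x ∈ W`: the polytope is the
free sum of `d / 2` hexagons. -/
def IsHexagonSum {d : ℕ} (U : Finset (Fin d → ℤ)) : Prop :=
  ∃ (W : Finset (Fin d → ℤ)) (π : (Fin d → ℤ) → Fin d → ℤ), W.card = d ∧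
    Submodule.span ℤ (W : Set (Fin d → ℤ)) = ⊤ ∧ (∀ x ∈ W, π x ∈ W ∧ π x ≠ x ∧ π (π x) = x) ∧
    ∀ v : Fin d → ℤ, (∀ u ∈ U, pair u (fun i => (v i : ℝ)) ≤ 1) ↔
      v = 0 ∨ ∃ x ∈ W, v = x ∨ v = -x ∨ v = π x - x

end Pool.Agent.Work.MP_2a05c6_ag.T
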