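import Pool.Agent.Work.MP_2a05c6_ag.T.Mat

/-!
The case of equality: first properties of the maximal pairs.
-/

set_option autoImplicit false

noncomputable section

namespace Pool.Agent.Work.MP_2a05c6_ag.T

open Finset Module Submodule
open scoped Classical

variable {X : Type} [AddCommGroup X] [Module ℝ X]

/-- The standing assumptions in the case of equality. -/
structure Cx (V : Finset X) (U : Finset (X →ₗ[ℝ] ℝ)) (Ok : (X →ₗ[ℝ] ℝ) → Finset X → Prop) :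
    Prop where
  rf : Rf V U
  min : ∀ F ∈ U, ∃ m, ∀ u ∈ U, u ≠ F → u m < F m
  mat : Mat V U (2 * finrank ℝ X) Ok

/-- A maximal pair. -/
def Mx (Ok : (X →ₗ[ℝ] ℝ) → Finset X → Prop) (F : X →ₗ[ℝ] ℝ) (Y : Finset X) : Prop :=
  Ok F Y ∧ ∀ G Z, Ok G Z → G (∑ y ∈ Z, y) ≤ F (∑ y ∈ Y, y)

/-- The neighbours of a facet. -/
structure Nb (V : Finset X) (U : Finset (X →ₗ[ℝ] ℝ)) (F : X →ₗ[ℝ] ℝ) (I : Finset (X →ₗ[ℝ] ℝ)) :
    Prop where
  sub : I ⊆ U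
  not : F ∉ I
  cone : ∀ x, (∀ G ∈ I, G x ≤ F x) → ∀ G ∈ U, G x ≤ F x
  adj : ∀ G ∈ I, Adj V F G

/-- A point of `F` of least height over `G`. -/
def Low (V : Finset X) (F G : X →ₗ[ℝ] ℝ) (Y : Finset X) (x : X) : Prop :=
  x ∈ V ∧ F x = 1 ∧ G x ≠ 1 ∧ G (∑ y ∈ Y, y) + G x - 1 = F (∑ y ∈ Y, y)

/-- The outcome of the two walks. -/
structure Tight (V : Finset X) (F : X →ₗ[ℝ] ℝ) (Y : Finset X) (I : Finset (X →ₗ[ℝ] ℝ))
    (l : X →ₗ[ℝ] ℝ) (B B' : Finset X) : Prop where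
  b : ∀ x ∈ B, x ∈ V ∧ F x = 1
  b' : ∀ x ∈ B', x ∈ V ∧ F x = 1
  w : ∀ G ∈ I, (∀ x ∈ B, G x = 1) → ∃ z ∈ Y, F z = 0 ∧ 0 < l z ∧ G z = 1
  w' : ∀ G ∈ I, (∀ x ∈ B', G x = 1) → ∃ z ∈ Y, F z = 0 ∧ l z < 0 ∧ G z = 1
  cov : ∀ G ∈ I, (∃ x ∈ B, G x ≠ 1) ∨ ∃ x ∈ B', G x ≠ 1
  zero : ∑ y ∈ Y, y + ∑ x ∈ B, x + ∑ x ∈ B', x = 0
  card : (Y.filter (F · = 0)).card + B.card + B'.card = 2 * finrank ℝ X
  lev : ∀ y ∈ Y, F y = 0 ∨ F y = -1

variable {V : Finset X} {U : Finset (X →ₗ[ℝ] ℝ)} {Ok : (X →ₗ[ℝ] ℝ) → Finset X → Prop}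
  {F G : X →ₗ[ℝ] ℝ} {Y : Finset X} {I : Finset (X →ₗ[ℝ] ℝ)}

lemma Tight.symm {l : X →ₗ[ℝ] ℝ} {B B' : Finset X} (t : Tight V F Y I l B B') :
    Tight V F Y I (-l) B' B :=
  ⟨t.b', t.b, fun G hG k => (t.w' G hG k).imp fun _ a => ⟨a.1, a.2.1, neg_pos.2 a.2.2.1, a.2.2.2⟩,
    fun G hG k => (t.w G hG k).imp fun _ a => ⟨a.1, a.2.1, neg_neg_of_pos a.2.2.1, a.2.2.2⟩,
    fun G hG => (t.cov G hG).symm, by rw [add_right_comm, t.zero], by rw [add_right_comm, t.card],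
    t.lev⟩

lemma Rf.pos_one (h : Rf V U) {u : X →ₗ[ℝ] ℝ} (hu : u ∈ U) {v : X} (hv : v ∈ V) (k : 0 < u v) :
    u v = 1 := by
  rcases h.cases hu hv with c | c | c <;> linarith

lemma Cx.nb (c : Cx V U Ok) (hF : F ∈ U) : ∃ I, Nb V U F I := by
  obtain ⟨m, hm⟩ := c.min F hF
  obtain ⟨I, a1, a2, a3, a4⟩ := c.rf.adj hF hm
  exact ⟨I, a1, a2, a3, a4⟩

lemma Cx.exists_mx (c : Cx V U Ok) : ∃ F Y, Mx Ok F Y := by
  have k : ∀ F Y, Ok F Y → (F, Y) ∈ (U ×ˢ V.powerset).filter fun p => Ok p.1 p.2 := fun F Y a =>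
    mem_filter.2 ⟨mem_product.2 ⟨(c.mat.mem F Y a).1, mem_powerset.2 (c.mat.mem F Y a).2.1⟩, a⟩
  obtain ⟨F, Y, a⟩ := c.mat.ne
  obtain ⟨p, hp, hm⟩ := exists_max_image _ (fun p : (X →ₗ[ℝ] ℝ) × Finset X =>
    p.1 (∑ y ∈ p.2, y)) ⟨_, k F Y a⟩
  exact ⟨p.1, p.2, (mem_filter.1 hp).2, fun G Z b => hm _ (k G Z b)⟩

lemma Cx.step (c : Cx V U Ok) (m : Mx Ok F Y) (hG : G ∈ U) (a : Adj V F G) {x : X} (hx : x ∈ V)
    (x1 : F x = 1) (x2 : G x ≠ 1) : ∃ z ∈ insert x Y, Ok G ((insert x Y).erase z) ∧ G z ≤ 1 ∧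
      G (∑ y ∈ (insert x Y).erase z, y) = G (∑ y ∈ Y, y) + G x - G z := by
  obtain ⟨z, hz, k⟩ := c.mat.ex F Y m.1 G hG a x hx x1 x2
  have nx : x ∉ Y := fun q => (c.mat.lev F Y m.1 x q).1 x1
  have e := congrArg G (add_sum_erase (insert x Y) (fun y => y) hz)
  rw [sum_insert nx, map_add, map_add] at e
  exact ⟨z, hz, k, c.rf.le_one hG (insert_subset hx (c.mat.mem F Y m.1).2.1 hz), by linarith⟩

lemma Cx.one (c : Cx V U Ok) (m : Mx Ok F Y) (hG : G ∈ U) (a : Adj V F G) {x : X} (hx : x ∈ V)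
    (x1 : F x = 1) (x2 : G x ≠ 1) : G (∑ y ∈ Y, y) + G x - 1 ≤ F (∑ y ∈ Y, y) := by
  obtain ⟨z, -, k, p, q⟩ := c.step m hG a hx x1 x2
  linarith [m.2 _ _ k]

lemma Cx.nbr (c : Cx V U Ok) (m : Mx Ok F Y) (hG : G ∈ U) (a : Adj V F G) {x : X}
    (hx : Low V F G Y x) : ∃ z ∈ Y, G z = 1 ∧ Mx Ok G ((insert x Y).erase z) := by
  obtain ⟨z, hz, k, p, q⟩ := c.step m hG a hx.1 hx.2.1 hx.2.2.1
  have r := m.2 _ _ k
  have e : G z = 1 := by linarith [hx.2.2.2]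
  exact ⟨z, (mem_insert.1 hz).resolve_left fun s => hx.2.2.1 (s ▸ e), e, k,
    fun H Z s => by linarith [m.2 H Z s, hx.2.2.2]⟩

lemma Rf.slack (h : Rf V U) (hG : G ∈ U) {C : Finset X} (hC : ∀ x ∈ C, x ∈ V ∧ F x = 1) :
    F (∑ x ∈ C, x) - G (∑ x ∈ C, x) = ∑ x ∈ C, (1 - G x) ∧ (∀ x ∈ C, 0 ≤ 1 - G x) ∧
      F (∑ x ∈ C, x) = C.card := by
  refine ⟨?_, fun x hx => sub_nonneg.2 (h.le_one hG (hC x hx).1), ?_⟩
  · rw [map_sum, map_sum, ← sum_sub_distrib]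
    exact sum_congr rfl fun x hx => by rw [(hC x hx).2]
  · rw [map_sum, sum_congr rfl fun v hv => (hC v hv).2]
    simp

lemma Cx.inC (c : Cx V U Ok) (m : Mx Ok F Y) (n : Nb V U F I) {B B' : Finset X}
    (b : ∀ x ∈ B, x ∈ V ∧ F x = 1) (b' : ∀ x ∈ B', x ∈ V ∧ F x = 1)
    (cov : ∀ G ∈ I, (∃ x ∈ B, G x ≠ 1) ∨ ∃ x ∈ B', G x ≠ 1) :
    ∀ u ∈ U, u (∑ y ∈ Y, y + ∑ x ∈ B, x + ∑ x ∈ B', x) ≤
      F (∑ y ∈ Y, y + ∑ x ∈ B, x + ∑ x ∈ B', x) := by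
  refine n.cone _ fun G hG => ?_
  obtain ⟨p1, p2, -⟩ := c.rf.slack (n.sub hG) b
  obtain ⟨q1, q2, -⟩ := c.rf.slack (n.sub hG) b'
  simp only [map_add]
  rcases cov G hG with ⟨x, hx, p⟩ | ⟨x, hx, p⟩
  · linarith [c.one m (n.sub hG) (n.adj G hG) (b x hx).1 (b x hx).2 p, single_le_sum p2 hx,
      sum_nonneg q2]
  · linarith [c.one m (n.sub hG) (n.adj G hG) (b' x hx).1 (b' x hx).2 p, single_le_sum q2 hx,
      sum_nonneg p2]

variable [FiniteDimensional ℝ X] [Nontrivial X]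

lemma Cx.tight (c : Cx V U Ok) (m : Mx Ok F Y) (n : Nb V U F I) (l : X →ₗ[ℝ] ℝ)
    (hl : ∀ y ∈ Y, l y ≠ 0) : ∃ B B', Tight V F Y I l B B' := by
  have h := c.rf
  obtain ⟨hF, hY, hc⟩ := c.mat.mem F Y m.1
  have sf : ⊤ ≤ span ℝ {v | v ∈ V ∧ F v = 1} := (c.min F hF).elim fun m hm => h.span_facet hF hm
  have two : ∀ G ∈ I, ∀ z ∈ Y.filter (F · = 0), ∀ z' ∈ Y.filter (F · = 0), 0 < G z → 0 < G z' →
      z = z' := fun G hG z hz z' hz' p p' =>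
    c.mat.two F Y m.1 G (n.sub hG) (n.adj G hG) z (mem_filter.1 hz).1 z' (mem_filter.1 hz').1
      (h.pos_one (n.sub hG) (hY (mem_filter.1 hz).1) p)
      (h.pos_one (n.sub hG) (hY (mem_filter.1 hz').1) p')
  have c0 : 0 < (V.filter (F · = 1)).card := by
    by_contra c0
    have b : {v | v ∈ V ∧ F v = 1} = ∅ := Set.eq_empty_iff_forall_notMem.2 fun v hv =>
      c0 (card_pos.2 ⟨v, mem_filter.2 ⟨hv.1, hv.2⟩⟩)
    rw [b, span_empty] at sf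
    obtain ⟨x, hx⟩ := exists_ne (0 : X)
    exact hx (sf (mem_top (x := x)))
  have m1 : ∀ u ∈ U, ∃ n : ℤ, u (∑ v ∈ V.filter (F · = 1), v) = n := fun u hu => by
    choose! n hn using h.int u hu
    exact ⟨∑ v ∈ V.filter (F · = 1), n v, by
      rw [map_sum, Int.cast_sum]
      exact sum_congr rfl fun v hv => hn v (mem_filter.1 hv).1⟩
  have m2 : ∀ G ∈ I, G (∑ v ∈ V.filter (F · = 1), v) < F (∑ v ∈ V.filter (F · = 1), v) := by
    intro G hG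
    rw [map_sum, map_sum]
    refine sum_lt_sum (fun v hv => (mem_filter.1 hv).2.symm ▸
      h.le_one (n.sub hG) (mem_filter.1 hv).1) ?_
    by_contra c
    refine n.not (LinearMap.ext_on (eq_top_iff.2 sf) (f := G) (g := F) (fun v hv => ?_) ▸ hG)
    exact le_antisymm (hv.2.symm ▸ h.le_one (n.sub hG) hv.1)
      (not_lt.1 fun k => c ⟨v, mem_filter.2 hv, k⟩)
  have m3 : 0 < F (∑ v ∈ V.filter (F · = 1), v) := by
    rw [map_sum, sum_congr rfl fun v hv => (mem_filter.1 hv).2]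
    simpa using c0
  have s1 : (Y.filter (F · = 0)).filter (0 < l ·) ⊆ Y.filter (F · = 0) := filter_subset _ _
  have s2 : (Y.filter (F · = 0)).filter (¬ 0 < l ·) ⊆ Y.filter (F · = 0) := filter_subset _ _
  have ng : ∀ z ∈ (Y.filter (F · = 0)).filter (¬ 0 < l ·), l z < 0 := fun z hz => lt_of_le_of_ne
    (not_lt.1 (mem_filter.1 hz).2) (hl z (mem_filter.1 (s2 hz)).1)
  obtain ⟨B, B1, B2, B3⟩ := h.walk hF n.sub n.cone m1 m2 m3
    ((s1.trans (filter_subset _ _)).trans hY)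
    (fun z hz => (mem_filter.1 (s1 hz)).2) l (fun z hz => (mem_filter.1 hz).2)
    fun G hG z hz z' hz' => two G hG z (s1 hz) z' (s1 hz')
  obtain ⟨B', B1', B2', B3'⟩ := h.walk hF n.sub n.cone m1 m2 m3
    ((s2.trans (filter_subset _ _)).trans hY)
    (fun z hz => (mem_filter.1 (s2 hz)).2) (-l) (fun z hz => neg_pos.2 (ng z hz))
    fun G hG z hz z' hz' => two G hG z (s2 hz) z' (s2 hz')
  have cov : ∀ G ∈ I, (∃ x ∈ B, G x ≠ 1) ∨ ∃ x ∈ B', G x ≠ 1 := fun G hG => by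
    by_contra k
    push Not at k
    obtain ⟨z, hz, p⟩ := B3 G hG k.1
    obtain ⟨z', hz', p'⟩ := B3' G hG k.2
    exact absurd (two G hG z (s1 hz) z' (s2 hz') p p' ▸ (mem_filter.1 hz).2) (mem_filter.1 hz').2
  have ic := c.inC m n B1 B1' cov
  have fin := h.nonneg ic
  have n1 : ∀ y ∈ Y.filter (¬ F · = 0), 0 ≤ -1 - F y := fun y hy => sub_nonneg.2
    (((h.cases hF (hY (mem_filter.1 hy).1)).resolve_left
      (c.mat.lev F Y m.1 y (mem_filter.1 hy).1).1).resolve_left (mem_filter.1 hy).2)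
  have f2 : F (∑ y ∈ Y, y) = -((Y.filter (¬ F · = 0)).card : ℝ) -
      ∑ y ∈ Y.filter (¬ F · = 0), (-1 - F y) := by
    rw [map_sum, ← sum_filter_add_sum_filter_not Y (F · = 0),
      sum_eq_zero fun y hy => (mem_filter.1 hy).2, zero_add, sum_sub_distrib]
    simp
  have e : F (∑ y ∈ Y, y + ∑ x ∈ B, x + ∑ x ∈ B', x) = F (∑ y ∈ Y, y) + B.card + B'.card := by
    rw [map_add, map_add, (h.slack hF B1).2.2, (h.slack hF B1').2.2]
  have n2 := sum_nonneg n1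
  have f3 : (Y.filter (¬ F · = 0)).card ≤ B.card + B'.card := by
    exact_mod_cast (by linarith : ((Y.filter (¬ F · = 0)).card : ℝ) ≤ B.card + B'.card)
  have f4 := card_filter_add_card_filter_not (s := Y) (F · = 0)
  have f5 := card_filter_add_card_filter_not (s := Y.filter (F · = 0)) (0 < l ·)
  have f6 : ((Y.filter (¬ F · = 0)).card : ℝ) = B.card + B'.card := by
    exact_mod_cast (by omega : (Y.filter (¬ F · = 0)).card = B.card + B'.card)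
  refine ⟨B, B', B1, B1', fun G hG k => ?_, fun G hG k => ?_, cov,
    h.rec_zero fun u hu => (ic u hu).trans (by linarith), by omega, fun y hy => ?_⟩
  · obtain ⟨z, hz, p⟩ := B3 G hG k
    obtain ⟨a, b⟩ := mem_filter.1 (s1 hz)
    exact ⟨z, a, b, (mem_filter.1 hz).2, h.pos_one (n.sub hG) (hY a) p⟩
  · obtain ⟨z, hz, p⟩ := B3' G hG k
    obtain ⟨a, b⟩ := mem_filter.1 (s2 hz)
    exact ⟨z, a, b, ng z hz, h.pos_one (n.sub hG) (hY a) p⟩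
  · refine or_iff_not_imp_left.2 fun k => ?_
    linarith [(sum_eq_zero_iff_of_nonneg n1).1 (by linarith) y (mem_filter.2 ⟨hy, k⟩)]

lemma Cx.tight0 (c : Cx V U Ok) (m : Mx Ok F Y) (n : Nb V U F I) :
    ∃ l B B', (∀ y ∈ Y, l y ≠ 0) ∧ Tight V F Y I l B B' := by
  obtain ⟨l, hl⟩ := exists_dual_forall_apply_ne_zero (K := ℝ) (fun y : Y => (y : X))
    fun y => (c.mat.lev F Y m.1 y y.2).2
  obtain ⟨B, B', t⟩ := c.tight m n l fun y hy => hl ⟨y, hy⟩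
  exact ⟨l, B, B', fun y hy => hl ⟨y, hy⟩, t⟩

lemma Cx.lev (c : Cx V U Ok) (m : Mx Ok F Y) : ∀ y ∈ Y, F y = 0 ∨ F y = -1 := by
  obtain ⟨I, n⟩ := c.nb (c.mat.mem F Y m.1).1
  obtain ⟨l, B, B', -, t⟩ := c.tight0 m n
  exact t.lev

lemma Cx.uniq (c : Cx V U Ok) (m : Mx Ok F Y) {Y' : Finset X} (m' : Mx Ok F Y') :
    ∑ y ∈ Y', y = ∑ y ∈ Y, y := by
  obtain ⟨I, n⟩ := c.nb (c.mat.mem F Y m.1).1
  obtain ⟨l, B, B', -, t⟩ := c.tight0 m n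
  have a := congrArg F t.zero
  have b := c.rf.rec_zero fun u hu => (c.inC m' n t.b t.b' t.cov u hu).trans (by
    simp only [map_add, map_zero] at a ⊢
    linarith [m.2 _ _ m'.1])
  exact add_right_cancel (add_right_cancel (b.trans t.zero.symm))

lemma Cx.low_uniq (c : Cx V U Ok) (m : Mx Ok F Y) (hG : G ∈ U) (a : Adj V F G) {x x' : X}
    (hx : Low V F G Y x) (hx' : Low V F G Y x') : x = x' := by
  obtain ⟨z, hz, p, q⟩ := c.nbr m hG a hx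
  obtain ⟨z', hz', p', q'⟩ := c.nbr m hG a hx'
  obtain rfl := c.mat.two F Y m.1 G hG a z hz z' hz' p p'
  have e := add_sum_erase (insert x Y) (fun y => y) (mem_insert_of_mem hz)
  have e' := add_sum_erase (insert x' Y) (fun y => y) (mem_insert_of_mem hz)
  rw [sum_insert fun k => (c.mat.lev F Y m.1 x k).1 hx.2.1, c.uniq q' q, e',
    sum_insert fun k => (c.mat.lev F Y m.1 x' k).1 hx'.2.1] at e
  exact (add_right_cancel e).symm

omit [FiniteDimensional ℝ X] [Nontrivial X] in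
lemma Cx.sgn (c : Cx V U Ok) (m : Mx Ok F Y) (n : Nb V U F I) {l : X →ₗ[ℝ] ℝ} {B B' : Finset X}
    (t : Tight V F Y I l B B') (hG : G ∈ I) {x : X} (hx : x ∈ B) (p : G x ≠ 1) :
    Low V F G Y x ∧ (∀ x' ∈ B, x' ≠ x → G x' = 1) ∧ (∀ x' ∈ B', G x' = 1) ∧
      ∃ z ∈ Y, F z = 0 ∧ l z < 0 ∧ G z = 1 := by
  obtain ⟨p1, p2, -⟩ := c.rf.slack (n.sub hG) t.b
  obtain ⟨q1, q2, -⟩ := c.rf.slack (n.sub hG) t.b'
  have a := congrArg F t.zero
  have b := congrArg G t.zero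
  simp only [map_add, map_zero] at a b
  have o := c.one m (n.sub hG) (n.adj G hG) (t.b x hx).1 (t.b x hx).2 p
  have s1 := single_le_sum p2 hx
  have s2 := sum_nonneg q2
  have k : ∀ x' ∈ B', G x' = 1 := fun x' hx' => by linarith [single_le_sum q2 hx', q2 x' hx']
  exact ⟨⟨(t.b x hx).1, (t.b x hx).2, p, by linarith⟩,
    fun x' hx' ne => by linarith [add_le_sum p2 hx hx' ne.symm, p2 x' hx'], k, t.w' G hG k⟩

lemma Cx.same (c : Cx V U Ok) (m : Mx Ok F Y) (n : Nb V U F I) {G' : X →ₗ[ℝ] ℝ} (hG : G ∈ I)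
    (hG' : G' ∈ I) {x z z' : X} (hx : Low V F G Y x) (hx' : Low V F G' Y x) (hz : z ∈ Y)
    (hz' : z' ∈ Y) (p : G z = 1) (p' : G' z' = 1) : z = z' := by
  obtain ⟨hF, hY, -⟩ := c.mat.mem F Y m.1
  have tw := c.mat.two F Y m.1 G (n.sub hG) (n.adj G hG)
  have tw' := c.mat.two F Y m.1 G' (n.sub hG') (n.adj G' hG')
  by_contra ne
  obtain ⟨l₀, -, -, hl, -⟩ := c.tight0 m n
  obtain ⟨M, hM⟩ : ∃ M : ℝ, M = ∑ v ∈ V, |l₀ v| + 1 := ⟨_, rfl⟩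
  have bd : ∀ y ∈ Y, |l₀ y| < M := fun y hy => by
    linarith [single_le_sum (f := fun v => |l₀ v|) (fun _ _ => abs_nonneg _) (hY hy)]
  have M0 : 0 < M := (abs_nonneg _).trans_lt (bd z hz)
  have ps : ∀ y ∈ Y, 1 ≤ G y - G' y → 0 < (M • (G - G') + l₀) y := fun y hy k => by
    simp only [LinearMap.add_apply, LinearMap.smul_apply, LinearMap.sub_apply, smul_eq_mul]
    nlinarith [(abs_lt.1 (bd y hy)).1]
  have ns : ∀ y ∈ Y, G y - G' y ≤ -1 → (M • (G - G') + l₀) y < 0 := fun y hy k => by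
    simp only [LinearMap.add_apply, LinearMap.smul_apply, LinearMap.sub_apply, smul_eq_mul]
    nlinarith [(abs_lt.1 (bd y hy)).2]
  obtain ⟨B, B', t⟩ := c.tight m n (M • (G - G') + l₀) fun y hy => by
    obtain ⟨a, ha⟩ := c.rf.int G (n.sub hG) y (hY hy)
    obtain ⟨b, hb⟩ := c.rf.int G' (n.sub hG') y (hY hy)
    rcases lt_trichotomy a b with k | k | k
    · refine (ns y hy ?_).ne
      rw [ha, hb]
      exact_mod_cast (by omega : a - b ≤ -1)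
    · simpa [ha, hb, k] using hl y hy
    · refine (ps y hy ?_).ne'
      rw [ha, hb]
      exact_mod_cast (by omega : 1 ≤ a - b)
  have z1 := ps z hz (by
    have := not_lt.1 fun k => ne (tw' z hz z' hz' (c.rf.pos_one (n.sub hG') (hY hz) k) p')
    linarith)
  have z2 := ns z' hz' (by
    have := not_lt.1 fun k => ne (tw z hz z' hz' p (c.rf.pos_one (n.sub hG) (hY hz') k))
    linarith)
  have xm : x ∈ B ∨ x ∈ B' := (t.cov G hG).imp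
    (fun ⟨y, hy, k⟩ => c.low_uniq m (n.sub hG) (n.adj G hG) (c.sgn m n t hG hy k).1 hx ▸ hy)
    (fun ⟨y, hy, k⟩ => c.low_uniq m (n.sub hG) (n.adj G hG) (c.sgn m n t.symm hG hy k).1 hx ▸ hy)
  rcases xm with k | k
  · obtain ⟨y, hy, -, a, b⟩ := (c.sgn m n t hG k hx.2.2.1).2.2.2
    rw [tw y hy z hz b p] at a
    linarith
  · obtain ⟨y, hy, -, a, b⟩ := (c.sgn m n t.symm hG' k hx'.2.2.1).2.2.2
    rw [tw' y hy z' hz' b p', LinearMap.neg_apply] at a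
    linarith

end Pool.Agent.Work.MP_2a05c6_ag.T
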