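import Pool.Agent.Work.MP_2a05c6_ag.T.Eq

/-!
The case of equality: every facet is a unimodular simplex, and the polytope is a sum of hexagons.
-/

set_option autoImplicit false

noncomputable section

namespace Pool.Agent.Work.MP_2a05c6_ag.T

open Finset Module Submodule
open scoped Classical

variable {X : Type} [AddCommGroup X] [Module ℝ X]

/-- The facet of a maximal pair is a simplex. -/
structure Simp (V : Finset X) (F : X →ₗ[ℝ] ℝ) (Y : Finset X) (I : Finset (X →ₗ[ℝ] ℝ))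
    (W : Finset X) (G : X → X →ₗ[ℝ] ℝ) (z : X → X) : Prop where
  card : W.card = finrank ℝ X
  mem : ∀ v, v ∈ W ↔ v ∈ V ∧ F v = 1
  gI : ∀ x ∈ W, G x ∈ I
  low : ∀ x ∈ W, Low V F (G x) Y x
  on : ∀ x ∈ W, ∀ x' ∈ W, x' ≠ x → G x x' = 1
  zY : ∀ x ∈ W, z x ∈ Y ∧ F (z x) = 0 ∧ G x (z x) = 1
  inj : Set.InjOn z W
  exp : ∀ v, ∃ c : X → ℝ, v = ∑ x ∈ W, c x • x
  cov : ∀ H ∈ I, ∃ x ∈ W, Low V F H Y x ∧ ∀ x' ∈ W, x' ≠ x → H x' = 1
  card0 : (Y.filter (F · = 0)).card = finrank ℝ X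
  sur : ∀ y ∈ Y, F y = 0 → ∃ x ∈ W, z x = y

variable {V : Finset X} {U : Finset (X →ₗ[ℝ] ℝ)} {Ok : (X →ₗ[ℝ] ℝ) → Finset X → Prop}
  {F : X →ₗ[ℝ] ℝ} {Y : Finset X} {I : Finset (X →ₗ[ℝ] ℝ)}

lemma coef {W : Finset X} {H : X →ₗ[ℝ] ℝ} {x : X} (hx : x ∈ W) (hF : ∀ w ∈ W, F w = 1)
    (hH : ∀ w ∈ W, w ≠ x → H w = 1) (c : X → ℝ) :
    F (∑ w ∈ W, c w • w) - H (∑ w ∈ W, c w • w) = c x * (1 - H x) := by
  rw [map_sum, map_sum, ← sum_sub_distrib, sum_eq_single_of_mem x hx fun w hw k => by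
    rw [map_smul, map_smul, hF w hw, hH w hw k, sub_self]]
  rw [map_smul, map_smul, hF x hx, smul_eq_mul, smul_eq_mul, mul_sub]

lemma coef_sum {W : Finset X} (hF : ∀ w ∈ W, F w = 1) (c : X → ℝ) :
    F (∑ w ∈ W, c w • w) = ∑ w ∈ W, c w := by
  rw [map_sum]
  exact sum_congr rfl fun w hw => by rw [map_smul, hF w hw, smul_eq_mul, mul_one]

variable [FiniteDimensional ℝ X] [Nontrivial X]

lemma Cx.simp (c : Cx V U Ok) (m : Mx Ok F Y) (n : Nb V U F I) : ∃ W G z, Simp V F Y I W G z := by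
  have h := c.rf
  obtain ⟨hF, hY, hc⟩ := c.mat.mem F Y m.1
  obtain ⟨l, B, B', -, t⟩ := c.tight0 m n
  have wV : ∀ x ∈ B ∪ B', x ∈ V ∧ F x = 1 := fun x hx => (mem_union.1 hx).elim (t.b x) (t.b' x)
  have key : ∀ H ∈ I, ∀ x ∈ B ∪ B', H x ≠ 1 → Low V F H Y x ∧ (∀ x' ∈ B ∪ B', x' ≠ x → H x' = 1) ∧
      ∃ z ∈ Y, F z = 0 ∧ H z = 1 := by
    intro H hH x hx p
    rcases mem_union.1 hx with k | k
    · obtain ⟨a1, a2, a3, z, a4, a5, -, a6⟩ := c.sgn m n t hH k p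
      exact ⟨a1, fun x' hx' e => (mem_union.1 hx').elim (a2 x' · e) (a3 x'), z, a4, a5, a6⟩
    · obtain ⟨a1, a2, a3, z, a4, a5, -, a6⟩ := c.sgn m n t.symm hH k p
      exact ⟨a1, fun x' hx' e => (mem_union.1 hx').elim (a3 x') (a2 x' · e), z, a4, a5, a6⟩
  have off : ∀ x, F x = 1 → ∃ H ∈ I, H x ≠ 1 := fun x p => by
    by_contra k
    push Not at k
    have := h.nonneg (n.cone (-x) fun H hH => by rw [map_neg, map_neg, p, k H hH])
    rw [map_neg, p] at this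
    linarith
  have cov : ∀ H ∈ I, ∃ x ∈ B ∪ B', H x ≠ 1 := fun H hH => (t.cov H hH).elim
    (fun ⟨x, a, b⟩ => ⟨x, mem_union_left _ a, b⟩) fun ⟨x, a, b⟩ => ⟨x, mem_union_right _ a, b⟩
  have dj : Disjoint B B' := disjoint_left.2 fun x a b => by
    obtain ⟨H, hH, p⟩ := off x (t.b x a).2
    exact p ((c.sgn m n t hH a p).2.2.1 x b)
  have tc := t.card
  rw [add_assoc, ← card_union_of_disjoint dj] at tc
  generalize B ∪ B' = W at wV key cov tc
  have ex : ∀ x ∈ W, ∃ H ∈ I, Low V F H Y x ∧ (∀ x' ∈ W, x' ≠ x → H x' = 1) ∧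
      ∃ z ∈ Y, F z = 0 ∧ H z = 1 := fun x hx =>
    (off x (wV x hx).2).imp fun H a => ⟨a.1, key H a.1 x hx a.2⟩
  choose! G gI low on z zY z0 z1 using ex
  have pos : ∀ x ∈ W, 0 < 1 - G x x := fun x hx =>
    sub_pos.2 ((h.le_one (n.sub (gI x hx)) (wV x hx).1).lt_of_ne (low x hx).2.2.1)
  have li : LinearIndepOn ℝ id (W : Set X) := linearIndepOn_finset_iff.2 fun f hf x hx => by
    have a := coef hx (fun w hw => (wV w hw).2) (on x hx) f
    rw [show ∑ w ∈ W, f w • w = 0 from hf, map_zero, map_zero, sub_self] at a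
    exact (mul_eq_zero.1 a.symm).resolve_right (pos x hx).ne'
  have fr := finrank_span_finset_eq_card li
  have fl := finrank_le (span ℝ (W : Set X))
  have sur : Set.SurjOn z W (Y.filter (F · = 0)) := by
    intro y hy
    obtain ⟨y1, y2⟩ := mem_filter.1 (mem_coe.1 hy)
    obtain ⟨H, hH, p⟩ : ∃ H ∈ I, 0 < H y := by
      by_contra k
      push Not at k
      exact (c.mat.lev F Y m.1 y y1).2 (h.rec_zero fun u hu =>
        (n.cone y (fun H hH => (k H hH).trans y2.ge) u hu).trans y2.le)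
    obtain ⟨x, hx, q⟩ := cov H hH
    exact ⟨x, hx, c.same m n (gI x hx) hH (low x hx) (key H hH x hx q).1 (zY x hx) y1 (z1 x hx)
      (h.pos_one (n.sub hH) (hY y1) p)⟩
  have c1 := card_le_card_of_surjOn z sur
  have cW : W.card = finrank ℝ X := by omega
  have top : span ℝ (W : Set X) = ⊤ := eq_top_of_finrank_eq (fr.trans cW)
  have exp : ∀ v, ∃ c : X → ℝ, v = ∑ x ∈ W, c x • x := fun v => by
    obtain ⟨f, -, hf⟩ := mem_span_finset.1 (top ▸ mem_top : v ∈ span ℝ (W : Set X))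
    exact ⟨f, hf.symm⟩
  refine ⟨W, G, z, cW, fun v => ⟨wV v, fun hv => ?_⟩, gI, low, on,
    fun x hx => ⟨zY x hx, z0 x hx, z1 x hx⟩, injOn_of_surjOn_of_card_le z
      (fun x hx => mem_coe.2 (mem_filter.2 ⟨zY x hx, z0 x hx⟩)) sur (by omega), exp,
    fun H hH => (cov H hH).imp fun x a => ⟨a.1, (key H hH x a.1 a.2).1, (key H hH x a.1 a.2).2.1⟩,
    by omega, fun y a b => sur (mem_coe.2 (mem_filter.2 ⟨a, b⟩))⟩
  obtain ⟨f, hf⟩ := exp v
  have s1 := coef_sum (fun w hw => (wV w hw).2) f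
  have s2 := fun x hx => coef hx (fun w hw => (wV w hw).2) (on x hx) f
  rw [← hf, hv.2] at s1 s2
  have s3 : ∀ x ∈ W, 0 ≤ f x := fun x hx => nonneg_of_mul_nonneg_left
    (s2 x hx ▸ sub_nonneg.2 (h.le_one (n.sub (gI x hx)) hv.1)) (pos x hx)
  obtain ⟨x, hx, p⟩ := exists_ne_zero_of_sum_ne_zero (s1 ▸ one_ne_zero : ∑ w ∈ W, f w ≠ 0)
  have q : G x v ≠ 1 := fun k => mul_ne_zero p (pos x hx).ne' (by rw [← s2 x hx, k, sub_self])
  have o := c.one m (n.sub (gI x hx)) (n.adj _ (gI x hx)) hv.1 hv.2 q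
  have r := mul_le_mul_of_nonneg_right (s1 ▸ single_le_sum s3 hx : f x ≤ 1) (pos x hx).le
  have lw : Low V F (G x) Y v := ⟨hv.1, hv.2, q, by linarith [(low x hx).2.2.2, s2 x hx]⟩
  exact c.low_uniq m (n.sub (gI x hx)) (n.adj _ (gI x hx)) (low x hx) lw ▸ hx

lemma Cx.nlev (c : Cx V U Ok) (m : Mx Ok F Y) (n : Nb V U F I) {H : X →ₗ[ℝ] ℝ} (hH : H ∈ I)
    {x : X} (hx : Low V F H Y x) {y : X} (hy : y ∈ Y) : H y = 1 ∨ H y = 0 ∨ H y = -1 := by
  obtain ⟨z, -, p, q⟩ := c.nbr m (n.sub hH) (n.adj H hH) hx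
  by_cases e : y = z
  · exact Or.inl (e ▸ p)
  · exact Or.inr (c.lev q y (mem_erase.2 ⟨e, mem_insert_of_mem hy⟩))

lemma Cx.inside (c : Cx V U Ok) (m : Mx Ok F Y) {v : X} (hv : v ∈ V) (v0 : v ≠ 0) :
    F v = 1 ∨ v ∈ Y := by
  obtain ⟨G, hG, hm⟩ := (U.filter fun G => ∃ Z, Mx Ok G Z ∧
    ∀ w ∈ V, G w = 1 ∨ w ∈ Z → F w = 1 ∨ w ∈ Y).exists_max_image (fun G => G v)
      ⟨F, mem_filter.2 ⟨(c.mat.mem F Y m.1).1, Y, m, fun _ _ k => k⟩⟩
  obtain ⟨hG, Z, mz, hz⟩ := mem_filter.1 hG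
  obtain ⟨I, n⟩ := c.nb hG
  obtain ⟨W, _, _, s⟩ := c.simp mz n
  have a := n.cone v fun H hH => by
    obtain ⟨x, hx, lw, on⟩ := s.cov H hH
    obtain ⟨z, z1, z2, mh⟩ := c.nbr mz (n.sub hH) (n.adj H hH) lw
    obtain ⟨I', n'⟩ := c.nb (n.sub hH)
    obtain ⟨W', _, _, s'⟩ := c.simp mh n'
    have nz : z ∉ W.erase x := fun k =>
      (c.mat.lev G Z mz.1 z z1).1 ((s.mem z).1 (mem_of_mem_erase k)).2
    have e : insert z (W.erase x) = W' := eq_of_subset_of_card_le (insert_subset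
      ((s'.mem z).2 ⟨(c.mat.mem G Z mz.1).2.1 z1, z2⟩) fun w hw => (s'.mem w).2
        ⟨((s.mem w).1 (mem_of_mem_erase hw)).1, on w (mem_of_mem_erase hw) (mem_erase.1 hw).1⟩)
      (by rw [card_insert_of_notMem nz, card_erase_add_one hx, s.card, s'.card])
    refine hm H (mem_filter.2 ⟨n.sub hH, _, mh, fun w hw k => hz w hw ?_⟩)
    rcases k with k | k
    · rcases mem_insert.1 (e ▸ (s'.mem w).2 ⟨hw, k⟩ : w ∈ insert z (W.erase x)) with k | k
      · exact Or.inr (k ▸ z1)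
      · exact Or.inl ((s.mem w).1 (mem_of_mem_erase k)).2
    · rcases mem_insert.1 (mem_of_mem_erase k) with k | k
      · exact Or.inl (k ▸ lw.2.1)
      · exact Or.inr k
  refine hz v hv (Or.inl (c.rf.pos_one hG hv (not_le.1 fun k => v0 ?_)))
  exact c.rf.rec_zero fun u hu => (a u hu).trans k

theorem Cx.shape (c : Cx V U Ok) (hneg : ∀ a ∈ V, (∀ u ∈ U, u (-a) ≤ 1) → -a ∈ V)
    (hadd : ∀ a ∈ V, ∀ b ∈ V, (∀ u ∈ U, u (a + b) ≤ 1) → a + b ∈ V) :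
    ∃ (W : Finset X) (π : X → X), W ⊆ V ∧ W.card = finrank ℝ X ∧
      (∀ x ∈ W, π x ∈ W ∧ π x ≠ x ∧ π (π x) = x ∧ -x ∈ V ∧ π x - x ∈ V) ∧
      (∀ v ∈ V, v = 0 ∨ ∃ x ∈ W, v = x ∨ v = -x ∨ v = π x - x) ∧
      ∃ F ∈ U, ∃ G : X → X →ₗ[ℝ] ℝ, (∀ x ∈ W, G x ∈ U) ∧
        ∀ v, v = ∑ x ∈ W, (F v - G x v) • x := by
  have h := c.rf
  obtain ⟨F, Y, m⟩ := c.exists_mx
  obtain ⟨hF, hY, hc⟩ := c.mat.mem F Y m.1
  obtain ⟨I, n⟩ := c.nb hF
  obtain ⟨W, G, z, s⟩ := c.simp m n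
  have w1 : ∀ w ∈ W, F w = 1 := fun w hw => ((s.mem w).1 hw).2
  have wV : W ⊆ V := fun w hw => ((s.mem w).1 hw).1
  have gU : ∀ x ∈ W, G x ∈ U := fun x hx => n.sub (s.gI x hx)
  have tw := fun x hx => c.mat.two F Y m.1 (G x) (gU x hx) (n.adj _ (s.gI x hx))
  have ng : ∀ y ∈ Y, F y ≠ 0 → -y ∈ W := by
    intro y hy k
    have e : F (-y) = 1 := by rw [map_neg, (c.lev m y hy).resolve_left k, neg_neg]
    refine (s.mem _).2 ⟨hneg y (hY hy) fun u hu => e ▸ n.cone (-y) (fun H hH => ?_) u hu, e⟩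
    obtain ⟨x, -, lw, -⟩ := s.cov H hH
    rw [e, map_neg]
    rcases c.nlev m n hH lw hy with a | a | a <;> linarith
  have ng' : ∀ x ∈ W, -x ∈ Y := by
    have a := surjOn_of_injOn_of_card_le (s := Y.filter (¬ F · = 0)) (t := W) (fun y => -y)
      (fun y hy => ng y (mem_filter.1 (mem_coe.1 hy)).1 (mem_filter.1 (mem_coe.1 hy)).2)
      (fun _ _ _ _ e => neg_injective e) (by
        have := card_filter_add_card_filter_not (s := Y) (F · = 0)
        have := s.card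
        have := s.card0
        omega)
    intro x hx
    obtain ⟨y, hy, e⟩ := a hx
    rw [← e, neg_neg]
    exact (mem_filter.1 (mem_coe.1 hy)).1
  have g0 : ∀ x ∈ W, G x x = 0 := by
    intro x hx
    rcases c.nlev m n (s.gI x hx) (s.low x hx) (ng' x hx) with a | a | a
    · have b := congrArg F (tw x hx _ (ng' x hx) _ (s.zY x hx).1 a (s.zY x hx).2.2)
      rw [map_neg, w1 x hx, (s.zY x hx).2.1] at b
      linarith
    · rwa [map_neg, neg_eq_zero] at a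
    · rw [map_neg, neg_inj] at a
      exact absurd a (s.low x hx).2.2.1
  have exp : ∀ v, v = ∑ x ∈ W, (F v - G x v) • x := fun v => by
    obtain ⟨f, hf⟩ := s.exp v
    refine hf.trans (sum_congr rfl fun x hx => ?_)
    rw [hf, coef hx w1 (s.on x hx) f, g0 x hx, sub_zero, mul_one]
  have pz : ∀ x ∈ W, ∃ x' ∈ W, x' ≠ x ∧ z x = x' - x := by
    intro x hx
    obtain ⟨z1, z2, z3⟩ := s.zY x hx
    have o : ∀ w ∈ W.erase x, G w (z x) = 0 ∨ G w (z x) = -1 := fun w hw =>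
      (c.nlev m n (s.gI w (mem_of_mem_erase hw)) (s.low w (mem_of_mem_erase hw)) z1).resolve_left
        fun k => (mem_erase.1 hw).1 (s.inj (mem_of_mem_erase hw) hx (tw w (mem_of_mem_erase hw) _
          (s.zY w (mem_of_mem_erase hw)).1 _ z1 (s.zY w (mem_of_mem_erase hw)).2.2 k))
    have e := exp (z x)
    have a := congrArg F e
    rw [coef_sum w1, ← add_sum_erase _ _ hx, z2, z3] at a
    have b : ∑ w ∈ W.erase x, (0 - G w (z x)) = 1 := by linarith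
    obtain ⟨x', hx', p⟩ := exists_ne_zero_of_sum_ne_zero (b ▸ one_ne_zero :
      ∑ w ∈ W.erase x, (0 - G w (z x)) ≠ 0)
    have q : G x' (z x) = -1 := (o x' hx').resolve_left fun k => p (by rw [k, sub_self])
    have nn : ∀ w ∈ W.erase x, 0 ≤ 0 - G w (z x) := fun w hw => by
      rcases o w hw with k | k <;> linarith
    refine ⟨x', mem_of_mem_erase hx', (mem_erase.1 hx').1, ?_⟩
    rw [← add_sum_erase _ _ hx, z2, z3, sum_eq_single_of_mem x' hx' fun w hw k => by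
      rw [le_antisymm (by linarith [add_le_sum nn hw hx' k] : 0 - G w (z x) ≤ 0) (nn w hw),
        zero_smul], q] at e
    rw [e]
    module
  choose! π p1 p2 p3 using pz
  refine ⟨W, π, wV, s.card, fun x hx => ⟨p1 x hx, p2 x hx, ?_, hY (ng' x hx),
    p3 x hx ▸ hY (s.zY x hx).1⟩, fun v hv => ?_, F, hF, G, gU, exp⟩
  · by_contra ne
    have hj := p1 x hx
    have hl := p1 _ hj
    have e : z x + z (π x) = π (π x) - x := by rw [p3 x hx, p3 _ hj]; abel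
    by_cases k : ∀ u ∈ U, u (z x + z (π x)) ≤ 1
    · have a1 := hadd _ (hY (s.zY x hx).1) _ (hY (s.zY _ hj).1) k
      have a2 : G x (z x + z (π x)) = 1 := by
        rw [e, map_sub, s.on x hx _ hl ne, g0 x hx, sub_zero]
      have a3 : z x + z (π x) ≠ 0 := e ▸ sub_ne_zero.2 ne
      rcases c.inside m a1 a3 with a | a
      · rw [map_add, (s.zY x hx).2.1, (s.zY _ hj).2.1] at a
        linarith
      · have a4 := tw x hx _ a _ (s.zY x hx).1 a2 (s.zY x hx).2.2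
        exact (c.mat.lev F Y m.1 _ (s.zY _ hj).1).2 (add_eq_left.1 a4)
    · push Not at k
      obtain ⟨H, hH, k⟩ := k
      have two : ∀ a ∈ V, ∀ b ∈ V, 1 < H (a + b) → H a = 1 ∧ H b = 1 := fun a ha b hb q => by
        rw [map_add] at q
        exact ⟨h.pos_one hH ha (by linarith [h.le_one hH hb]),
          h.pos_one hH hb (by linarith [h.le_one hH ha])⟩
      have e' : z x + z (π x) = π (π x) + -x := e.trans (sub_eq_add_neg _ _)
      obtain ⟨a1, a2⟩ := two _ (hY (s.zY x hx).1) _ (hY (s.zY _ hj).1) k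
      obtain ⟨a3, a4⟩ := two _ (wV hl) _ (hY (ng' x hx)) (e' ▸ k)
      refine c.mat.rel F Y m.1 H hH _ (s.zY x hx).1 _ (s.zY _ hj).1 _ (ng' x hx) _ (wV hl)
        (w1 _ hl) a1 a2 a4 a3 e' (fun q => p2 x hx (s.inj hj hx q)) fun q => ?_
      have b := congrArg F q
      rw [map_neg, w1 x hx, (s.zY x hx).2.1] at b
      linarith
  · refine or_iff_not_imp_left.2 fun v0 => ?_
    rcases c.inside m hv v0 with a | a
    · exact ⟨v, (s.mem v).2 ⟨hv, a⟩, Or.inl rfl⟩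
    · by_cases k : F v = 0
      · obtain ⟨x, hx, e⟩ := s.sur v a k
        exact ⟨x, hx, Or.inr (Or.inr (e ▸ p3 x hx))⟩
      · exact ⟨-v, ng v a k, Or.inr (Or.inl (neg_neg v).symm)⟩

end Pool.Agent.Work.MP_2a05c6_ag.T
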