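import Pool.Agent.Work.MP_2a05c6_ag.T.Defs
import Pool.Agent.Work.MP_2a05c6_ag.T.Core

/-!
The bound for support functions.
-/

set_option autoImplicit false

noncomputable section

namespace Pool.Agent.Work.MP_2a05c6_ag.T

open Finset Module Submodule

lemma exists_lam {X E : Type} [AddCommGroup X] [Module ℝ X] [AddCommGroup E] [Module ℝ E]
    (W : Finset X) (e : X → E)
    (h : ∀ c : W → ℝ, ∑ v : W, c v • (v : X) = 0 → ∑ v : W, c v • e v = 0) :
    ∃ lam : X →ₗ[ℝ] E, ∀ v ∈ W, e v = lam v := by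
  classical
  let A : (W → ℝ) →ₗ[ℝ] X := Fintype.linearCombination ℝ fun v : W => (v : X)
  let B : (W → ℝ) →ₗ[ℝ] E := Fintype.linearCombination ℝ fun v : W => e v
  obtain ⟨g, hg⟩ := A.rangeRestrict.exists_rightInverse_of_surjective A.range_rangeRestrict
  obtain ⟨g', hg'⟩ := g.exists_extend
  refine ⟨B ∘ₗ g', fun v hv => ?_⟩
  have a1 : A (Pi.single ⟨v, hv⟩ 1) = v := by simp [A]
  have a2 : B (Pi.single ⟨v, hv⟩ 1) = e v := by simp [B]
  have a3 : A (g' v) = v := by
    have b1 := LinearMap.congr_fun hg' ⟨v, _, a1⟩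
    have b2 := congrArg Subtype.val (LinearMap.congr_fun hg ⟨v, _, a1⟩)
    exact (congrArg A b1).trans b2
  have a4 : B (Pi.single ⟨v, hv⟩ 1 - g' v) = 0 :=
    h _ (show A (Pi.single ⟨v, hv⟩ 1 - g' v) = 0 by rw [map_sub, a1, a3, sub_self])
  rw [map_sub, a2] at a4
  exact sub_eq_zero.1 a4

variable {d : ℕ}

/-- The pairing as a linear form. -/
def form (u : Fin d → ℤ) : (Fin d → ℝ) →ₗ[ℝ] ℝ :=
  Fintype.linearCombination ℝ fun i => (u i : ℝ)

lemma form_apply (u : Fin d → ℤ) (x : Fin d → ℝ) : form u x = pair u x := by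
  simp [form, pair, Fintype.linearCombination_apply, mul_comm]

theorem support_bound (hd : 1 ≤ d) {U : Finset (Fin d → ℤ)} (h : IsReflexive U) :
    FiniteDimensional ℝ (SupportFns U) ∧ finrank ℝ (SupportFns U) ≤ 3 * d := by
  classical
  obtain ⟨V₀, hV⟩ := h
  obtain ⟨V, eV⟩ : ∃ V : Finset (Fin d → ℝ),
      V = V₀.image fun (v : Fin d → ℤ) (i : Fin d) => (v i : ℝ) := ⟨_, rfl⟩
  have : Nonempty (Fin d) := ⟨⟨0, hd⟩⟩
  have rf : Rf V (U.image form) := by
    refine ⟨?_, fun u hu v hv => ?_⟩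
    · rw [eV, coe_image, hV]
      ext x
      simp [form_apply]
    · obtain ⟨u, -, rfl⟩ := mem_image.1 hu
      obtain ⟨v, -, rfl⟩ := mem_image.1 (eV ▸ hv)
      exact ⟨∑ i, u i * v i, by simp [form_apply, pair]⟩
  have ne : U.Nonempty := by
    obtain ⟨x, hx⟩ := exists_ne (0 : Fin d → ℝ)
    by_contra c
    exact hx (rf.rec_zero fun u hu => absurd (image_nonempty.1 ⟨u, hu⟩) c)
  have cone : ∀ u ∈ U, ∀ v ∈ V, form u v = 1 → ∀ u' ∈ U, pair u' v ≤ pair u v :=
    fun u _ v hv k u' hu' => by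
      rw [← form_apply, ← form_apply, k]
      exact rf.le_one (mem_image_of_mem _ hu') hv
  have sep : ∀ φ : SupportFns U, (∀ v ∈ V, φ.1 v = 0) → φ = 0 := by
    intro φ hφ
    refine Subtype.ext (funext fun x => ?_)
    obtain ⟨u, hu, hm⟩ := U.exists_max_image (fun u => pair u x) ne
    obtain ⟨l, hl⟩ := φ.2 u hu
    have a := rf.mem_span (F := form u) (x := x) fun G hG => by
      obtain ⟨u', hu', rfl⟩ := mem_image.1 hG
      rw [form_apply, form_apply]
      exact hm u' hu'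
    rw [hl x hm]
    exact LinearMap.eqOn_span (g := 0) (fun v hv => (hl v (cone u hu v hv.1
      (hv.2 _ (mem_image_of_mem _ hu) rfl))).symm.trans (hφ v hv.1)) a
  have fd : FiniteDimensional ℝ (SupportFns U) := Module.Finite.of_injective
    ((LinearMap.pi fun v : V => LinearMap.proj (v : Fin d → ℝ)) ∘ₗ (SupportFns U).subtype)
    ((injective_iff_map_eq_zero _).2 fun φ k => sep φ fun v hv => congrFun k ⟨v, hv⟩)
  let e : (Fin d → ℝ) → Dual ℝ (SupportFns U) := fun x =>
    LinearMap.proj x ∘ₗ (SupportFns U).subtype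
  let π : Dual ℝ (SupportFns U) →ₗ[ℝ] Fin d → ℝ := LinearMap.pi fun i =>
    Dual.eval ℝ _ ⟨fun x => x i, fun _ _ => ⟨LinearMap.proj i, fun _ _ => rfl⟩⟩
  have a := core rf e π (fun v _ => rfl) (LinearMap.ext fun φ => by
    obtain ⟨u, hu⟩ := ne
    obtain ⟨l, hl⟩ := φ.2 u hu
    exact (hl 0 fun u' _ => by simp [pair]).trans (map_zero l)) (fun G hG => by
      obtain ⟨u, hu, rfl⟩ := mem_image.1 hG
      obtain ⟨lam, k⟩ := exists_lam (V.filter (form u · = 1)) e fun c hc =>
        LinearMap.ext fun φ => by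
          obtain ⟨l, hl⟩ := φ.2 u hu
          have b := congrArg l hc
          rw [map_sum, map_zero] at b
          rw [LinearMap.sum_apply]
          refine Eq.trans (sum_congr rfl fun v _ => ?_) b
          rw [map_smul, LinearMap.smul_apply]
          exact congrArg _ (hl v (cone u hu v (mem_filter.1 v.2).1 (mem_filter.1 v.2).2))
      exact ⟨lam, fun v hv k' => k v (mem_filter.2 ⟨hv, k'⟩)⟩)
  refine ⟨fd, le_trans ?_ (a.trans (by simp))⟩
  rw [← Subspace.dual_finrank_eq (V := span ℝ (e '' V))]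
  exact LinearMap.finrank_le_finrank_of_injective
    (f := (span ℝ (e '' V)).subtype.dualMap ∘ₗ Dual.eval ℝ (SupportFns U))
    ((injective_iff_map_eq_zero _).2 fun φ k => sep φ fun v hv =>
      LinearMap.congr_fun k ⟨e v, subset_span ⟨v, hv, rfl⟩⟩)

theorem pic_bound (hd : 1 ≤ d) {U : Finset (Fin d → ℤ)} (h : IsReflexive U) :
    Module.rank ℝ (PicR U) ≤ 2 * d := by
  obtain ⟨fd, a⟩ := support_bound hd h
  have b := ((LinearFns d).submoduleOf (SupportFns U)).finrank_quotient_add_finrank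
  let j : Dual ℝ (Fin d → ℝ) →ₗ[ℝ] (LinearFns d).submoduleOf (SupportFns U) :=
    { toFun := fun l => ⟨⟨l, fun _ _ => ⟨l, fun _ _ => rfl⟩⟩, l, rfl⟩
      map_add' := fun _ _ => rfl
      map_smul' := fun _ _ => rfl }
  have c := LinearMap.finrank_le_finrank_of_injective (f := j) fun l l' k =>
    LinearMap.ext fun x => congrFun (congrArg (fun φ => φ.1.1) k) x
  rw [Subspace.dual_finrank_eq, finrank_fin_fun] at c
  have f : finrank ℝ (PicR U) ≤ 2 * d := by
    unfold PicR
    omega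
  rw [← finrank_eq_rank]
  exact_mod_cast f

end Pool.Agent.Work.MP_2a05c6_ag.T
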