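import Pool.Agent.Work.MP_2a05c6_ag.T.Defs2
import Pool.Agent.Work.MP_2a05c6_ag.T.Main
import Pool.Agent.Work.MP_2a05c6_ag.T.Eq2

/-!
The case of equality for support functions.
-/

set_option autoImplicit false

noncomputable section

namespace Pool.Agent.Work.MP_2a05c6_ag.T

open Finset Module Submodule
open scoped Classical

variable {d : ℕ}

/-- Integer vectors as real vectors. -/
def cst : (Fin d → ℤ) →ₗ[ℤ] Fin d → ℝ where
  toFun v i := v i
  map_add' a b := funext fun i => Int.cast_add _ _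
  map_smul' a b := funext fun i => by simp

lemma cst_inj : Function.Injective (cst (d := d)) :=
  fun _ _ k => funext fun i => Int.cast_injective (α := ℝ) (congrFun k i)

lemma form_int (u v : Fin d → ℤ) : form u (cst v) = (∑ i, u i * v i : ℤ) := by
  simp [form_apply, pair, cst]

lemma rf_of {U V₀ : Finset (Fin d → ℤ)}
    (hV : convexHull ℝ (cst '' (V₀ : Set (Fin d → ℤ))) = {x | ∀ u ∈ U, pair u x ≤ 1}) :
    Rf (V₀.image cst) (U.image form) := by
  refine ⟨?_, fun u hu v hv => ?_⟩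
  · rw [coe_image, hV]
    ext x
    simp [form_apply]
  · obtain ⟨u, -, rfl⟩ := mem_image.1 hu
    obtain ⟨v, -, rfl⟩ := mem_image.1 hv
    exact ⟨_, form_int u v⟩

lemma saturate {U : Finset (Fin d → ℤ)} (h : IsReflexive U) : ∃ V₁ : Finset (Fin d → ℤ),
    convexHull ℝ (cst '' (V₁ : Set (Fin d → ℤ))) = {x | ∀ u ∈ U, pair u x ≤ 1} ∧
      ∀ v, v ∈ V₁ ↔ ∀ u ∈ U, pair u (cst v) ≤ 1 := by
  obtain ⟨V₀, hV⟩ := h
  replace hV : convexHull ℝ (cst '' (V₀ : Set (Fin d → ℤ))) = _ := hV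
  have rf := rf_of hV
  have fin : {v : Fin d → ℤ | ∀ u ∈ U, pair u (cst v) ≤ 1}.Finite := by
    refine (Set.finite_Icc (fun i => -⌈∑ w ∈ V₀.image cst, |w i|⌉)
      (fun i => ⌈∑ w ∈ V₀.image cst, |w i|⌉)).subset fun v hv => ?_
    have a : ∀ u ∈ U.image form, u (cst v) ≤ 1 := fun u hu => by
      obtain ⟨u, hu', rfl⟩ := mem_image.1 hu
      exact form_apply u _ ▸ hv u hu'
    refine ⟨fun i => ?_, fun i => ?_⟩
    · have b := (rf.bdd (-LinearMap.proj i) a).trans (Int.le_ceil _)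
      simp only [LinearMap.neg_apply, LinearMap.proj_apply, abs_neg] at b
      exact neg_le.1 (by exact_mod_cast (show -((v i : ℤ) : ℝ) ≤ _ from b))
    · have b := (rf.bdd (LinearMap.proj i) a).trans (Int.le_ceil _)
      exact_mod_cast (show ((v i : ℤ) : ℝ) ≤ _ from b)
  refine ⟨fin.toFinset, le_antisymm (convexHull_min ?_ (hV ▸ convex_convexHull ℝ _))
    (hV ▸ convexHull_mono (Set.image_mono fun v hv => ?_)), fun v => fin.mem_toFinset⟩
  · rintro _ ⟨v, hv, rfl⟩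
    exact fin.mem_toFinset.1 hv
  · have a : cst v ∈ convexHull ℝ (cst '' (V₀ : Set (Fin d → ℤ))) :=
      subset_convexHull ℝ _ ⟨v, hv, rfl⟩
    rw [hV] at a
    exact fin.mem_toFinset.2 a

lemma setup (hd : 1 ≤ d) {U : Finset (Fin d → ℤ)} {V : Finset (Fin d → ℝ)}
    (rf : Rf V (U.image form)) [FiniteDimensional ℝ (SupportFns U)] :
    ∃ (e : (Fin d → ℝ) → Dual ℝ (SupportFns U)) (π : Dual ℝ (SupportFns U) →ₗ[ℝ] Fin d → ℝ),
      (∀ v, π (e v) = v) ∧ e 0 = 0 ∧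
      (∀ u ∈ U.image form, ∃ lam : (Fin d → ℝ) →ₗ[ℝ] Dual ℝ (SupportFns U),
        ∀ v ∈ V, u v = 1 → e v = lam v) ∧
      finrank ℝ (SupportFns U) ≤ finrank ℝ (span ℝ (e '' V)) := by
  have : Nonempty (Fin d) := ⟨⟨0, hd⟩⟩
  have ne : U.Nonempty := by
    obtain ⟨x, hx⟩ := exists_ne (0 : Fin d → ℝ)
    by_contra c
    exact hx (rf.rec_zero fun u hu => absurd (image_nonempty.1 ⟨u, hu⟩) c)
  have cone : ∀ u ∈ U, ∀ v ∈ V, form u v = 1 → ∀ u' ∈ U, pair u' v ≤ pair u v :=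
    fun u _ v hv k u' hu' => by
      rw [← form_apply, ← form_apply, k]
      exact rf.le_one (mem_image_of_mem _ hu') hv
  have sep : ∀ φ : SupportFns U, (∀ v ∈ V, φ.1 v = 0) → φ = 0 := by
    intro φ hφ
    refine Subtype.ext (funext fun x => ?_)
    obtain ⟨u, hu, hm⟩ := U.exists_max_image (fun u => pair u x) ne
    obtain ⟨l, hl⟩ := φ.2 u hu
    have a := rf.mem_span (F := form u) (x := x) fun G hG => by
      obtain ⟨u', hu', rfl⟩ := mem_image.1 hG
      rw [form_apply, form_apply]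
      exact hm u' hu'
    rw [hl x hm]
    exact LinearMap.eqOn_span (g := 0) (fun v hv => (hl v (cone u hu v hv.1
      (hv.2 _ (mem_image_of_mem _ hu) rfl))).symm.trans (hφ v hv.1)) a
  let e : (Fin d → ℝ) → Dual ℝ (SupportFns U) := fun x =>
    LinearMap.proj x ∘ₗ (SupportFns U).subtype
  refine ⟨e, LinearMap.pi fun i =>
    Dual.eval ℝ _ ⟨fun x => x i, fun _ _ => ⟨LinearMap.proj i, fun _ _ => rfl⟩⟩, fun v => rfl,
    LinearMap.ext fun φ => ?_, fun G hG => ?_, ?_⟩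
  · obtain ⟨u, hu⟩ := ne
    obtain ⟨l, hl⟩ := φ.2 u hu
    exact (hl 0 fun u' _ => by simp [pair]).trans (map_zero l)
  · obtain ⟨u, hu, rfl⟩ := mem_image.1 hG
    obtain ⟨lam, k⟩ := exists_lam (V.filter (form u · = 1)) e fun c hc =>
      LinearMap.ext fun φ => by
        obtain ⟨l, hl⟩ := φ.2 u hu
        have b := congrArg l hc
        rw [map_sum, map_zero] at b
        rw [LinearMap.sum_apply]
        refine Eq.trans (sum_congr rfl fun v _ => ?_) b
        rw [map_smul, LinearMap.smul_apply]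
        exact congrArg _ (hl v (cone u hu v (mem_filter.1 v.2).1 (mem_filter.1 v.2).2))
    exact ⟨lam, fun v hv k' => k v (mem_filter.2 ⟨hv, k'⟩)⟩
  · rw [← Subspace.dual_finrank_eq (V := span ℝ (e '' V))]
    exact LinearMap.finrank_le_finrank_of_injective
      (f := (span ℝ (e '' V)).subtype.dualMap ∘ₗ Dual.eval ℝ (SupportFns U))
      ((injective_iff_map_eq_zero _).2 fun φ k => sep φ fun v hv =>
        LinearMap.congr_fun k ⟨e v, subset_span ⟨v, hv, rfl⟩⟩)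

theorem pic_eq (hd : 1 ≤ d) {U : Finset (Fin d → ℤ)} (h : IsReflexive U)
    (hρ : Module.rank ℝ (PicR U) = 2 * d) : IsHexagonSum U := by
  obtain ⟨fd, -⟩ := support_bound hd h
  have : Nonempty (Fin d) := ⟨⟨0, hd⟩⟩
  have b := ((LinearFns d).submoduleOf (SupportFns U)).finrank_quotient_add_finrank
  let j : Dual ℝ (Fin d → ℝ) →ₗ[ℝ] (LinearFns d).submoduleOf (SupportFns U) :=
    { toFun := fun l => ⟨⟨l, fun _ _ => ⟨l, fun _ _ => rfl⟩⟩, l, rfl⟩
      map_add' := fun _ _ => rfl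
      map_smul' := fun _ _ => rfl }
  have c := LinearMap.finrank_le_finrank_of_injective (f := j) fun l l' k =>
    LinearMap.ext fun x => congrFun (congrArg (fun φ => φ.1.1) k) x
  rw [Subspace.dual_finrank_eq, finrank_fin_fun] at c
  rw [← finrank_eq_rank] at hρ
  have f : finrank ℝ (PicR U) = 2 * d := by exact_mod_cast hρ
  unfold PicR at f
  obtain ⟨V₁, hV, hm⟩ := saturate h
  have rf := rf_of hV
  obtain ⟨e, π, e1, e2, e3, e4⟩ := setup hd rf
  have e5 := core rf e π (fun v _ => e1 v) e2 e3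
  obtain ⟨I, h1, h2, h3⟩ := exists_min (U.image form) fun u x => u x ≤ 1
  have h' : Rf (V₁.image cst) I := ⟨rf.hull.trans (Set.ext fun x =>
    ⟨fun k u hu => k u (h1 hu), h2 x⟩), fun u hu => rf.int u (h1 hu)⟩
  have ne : I.Nonempty := by
    obtain ⟨x, hx⟩ := exists_ne (0 : Fin d → ℝ)
    by_contra c
    exact hx (h'.rec_zero fun u hu => absurd ⟨u, hu⟩ c)
  have mn : ∀ F ∈ I, ∃ m, ∀ u ∈ I, u ≠ F → u m < F m := fun F hF => by
    obtain ⟨x, a, b⟩ := h3 F hF
    exact ⟨x, fun u hu k => (b u hu k).trans_lt (not_le.1 a)⟩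
  obtain ⟨Ok, mat⟩ := exists_mat h' ne mn e π (fun v _ => e1 v) e2 (fun u hu => e3 u (h1 hu))
    (ρ := 2 * finrank ℝ (Fin d → ℝ)) (by rw [finrank_fin_fun] at e5 ⊢; omega)
  have st : ∀ v, (∀ u ∈ I, u (cst v) ≤ 1) → cst v ∈ V₁.image cst := fun v k =>
    mem_image_of_mem _ ((hm v).2 fun u hu => form_apply u _ ▸ h2 _ k _ (mem_image_of_mem _ hu))
  obtain ⟨W, p, W1, W2, W3, W4, F, hF, G, hG, W5⟩ := (Cx.mk h' mn mat).shape
    (fun a ha k => by
      obtain ⟨a, -, rfl⟩ := mem_image.1 ha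
      rw [← map_neg] at k ⊢
      exact st _ k)
    (fun a ha b hb k => by
      obtain ⟨a, -, rfl⟩ := mem_image.1 ha
      obtain ⟨b, -, rfl⟩ := mem_image.1 hb
      rw [← map_add] at k ⊢
      exact st _ k)
  have im : (V₁.filter (cst · ∈ W)).image cst = W := by
    ext x
    exact ⟨fun k => (mem_image.1 k).elim fun y a => a.2 ▸ (mem_filter.1 a.1).2,
      fun k => (mem_image.1 (W1 k)).elim fun y a =>
        mem_image.2 ⟨y, mem_filter.2 ⟨a.1, a.2.symm ▸ k⟩, a.2⟩⟩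
  have pre : ∀ x ∈ W, ∃ y ∈ V₁.filter (cst · ∈ W), cst y = x := fun x hx => mem_image.1 (im.ge hx)
  choose! q q1 q2 using fun x (hx : x ∈ V₁.filter (cst · ∈ W)) =>
    pre _ (W3 _ (mem_filter.1 hx).2).1
  have vm : ∀ v, cst v ∈ V₁.image cst → ∀ u ∈ U, pair u (cst v) ≤ 1 := fun v k u hu =>
    form_apply u _ ▸ rf.le_one (mem_image_of_mem _ hu) k
  refine ⟨V₁.filter (cst · ∈ W), q, ?_, eq_top_iff.2 fun n _ => ?_, fun x hx => ⟨q1 x hx,
    fun k => (W3 _ (mem_filter.1 hx).2).2.1 (by rw [← q2 x hx, k]), cst_inj ?_⟩,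
    fun v => ⟨fun k => ?_, fun k => ?_⟩⟩
  · rw [← card_image_of_injective _ cst_inj, im, W2, finrank_fin_fun]
  · have a : cst n ∈ span ℤ (W : Set (Fin d → ℝ)) := by
      rw [W5 (cst n)]
      refine sum_mem fun x hx => ?_
      obtain ⟨f, -, rfl⟩ := mem_image.1 (h1 hF)
      obtain ⟨g, -, eg⟩ := mem_image.1 (h1 (hG x hx))
      rw [← eg, form_int, form_int, ← Int.cast_sub, Int.cast_smul_eq_zsmul]
      exact smul_mem _ _ (subset_span hx)
    rw [← im, coe_image, span_image] at a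
    obtain ⟨y, hy, e⟩ := a
    exact cst_inj e ▸ hy
  · rw [q2 _ (q1 x hx), q2 x hx, (W3 _ (mem_filter.1 hx).2).2.2.1]
  · refine (W4 _ (mem_image_of_mem _ ((hm v).2 k))).imp (fun a => cst_inj (a.trans cst.map_zero.symm))
      fun ⟨x, hx, a⟩ => ?_
    obtain ⟨y, hy, rfl⟩ := pre x hx
    refine ⟨y, hy, a.imp (fun a => cst_inj a) (Or.imp (fun a => cst_inj ?_) fun a => cst_inj ?_)⟩
    · rw [a, map_neg]
    · rw [a, map_sub, q2 y hy]
  · rcases k with rfl | ⟨x, hx, rfl | rfl | rfl⟩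
    · intro u _
      simp [pair]
    · exact vm _ (W1 (mem_filter.1 hx).2)
    · exact vm _ (by rw [map_neg]; exact (W3 _ (mem_filter.1 hx).2).2.2.2.1)
    · exact vm _ (by rw [map_sub, q2 x hx]; exact (W3 _ (mem_filter.1 hx).2).2.2.2.2)

end Pool.Agent.Work.MP_2a05c6_ag.T
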