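import Pool.Agent.Work.MP_2a05c6_ag.T.Core

/-!
The exchange properties of the minimal sets that span modulo a facet.
-/

set_option autoImplicit false

noncomputable section

namespace Pool.Agent.Work.MP_2a05c6_ag.T

open Finset Module Submodule
open scoped Classical

variable {X E : Type} [AddCommGroup X] [Module ℝ X] [AddCommGroup E] [Module ℝ E]

/-- The facets `F` and `G` share a ridge. -/
def Adj (V : Finset X) (F G : X →ₗ[ℝ] ℝ) : Prop :=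
  LinearMap.ker (F - G) ≤ span ℝ {v | v ∈ V ∧ F v = 1 ∧ G v = 1}

/-- The exchange properties. -/
structure Mat (V : Finset X) (U : Finset (X →ₗ[ℝ] ℝ)) (ρ : ℕ)
    (Ok : (X →ₗ[ℝ] ℝ) → Finset X → Prop) : Prop where
  mem : ∀ F Y, Ok F Y → F ∈ U ∧ Y ⊆ V ∧ Y.card = ρ
  lev : ∀ F Y, Ok F Y → ∀ y ∈ Y, F y ≠ 1 ∧ y ≠ 0
  ex : ∀ F Y, Ok F Y → ∀ G ∈ U, Adj V F G → ∀ x ∈ V, F x = 1 → G x ≠ 1 →
    ∃ z ∈ insert x Y, Ok G ((insert x Y).erase z)
  two : ∀ F Y, Ok F Y → ∀ G ∈ U, Adj V F G → ∀ z ∈ Y, ∀ z' ∈ Y, G z = 1 → G z' = 1 → z = z'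
  swap : ∀ F Y, Ok F Y → ∀ G ∈ U, Adj V F G → ∀ z ∈ Y, ∀ v ∈ V, v ∉ Y → G z = 1 → G v = 1 →
    F v ≠ 1 → Ok F (insert v (Y.erase z))
  rel : ∀ F Y, Ok F Y → ∀ H ∈ U, ∀ a ∈ Y, ∀ b ∈ Y, ∀ c ∈ Y, ∀ x ∈ V, F x = 1 → H a = 1 → H b = 1 →
    H c = 1 → H x = 1 → a + b = x + c → b ≠ a → c ≠ a → False
  ne : ∃ F Y, Ok F Y

variable {V : Finset X} {U : Finset (X →ₗ[ℝ] ℝ)}

theorem exists_mat [FiniteDimensional ℝ X] [FiniteDimensional ℝ E] (h : Rf V U) (hU : U.Nonempty)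
    (hmin : ∀ F ∈ U, ∃ m, ∀ u ∈ U, u ≠ F → u m < F m) (e : X → E) (π : E →ₗ[ℝ] X)
    (hπ : ∀ v ∈ V, π (e v) = v) (h0 : e 0 = 0)
    (hL : ∀ u ∈ U, ∃ lam : X →ₗ[ℝ] E, ∀ v ∈ V, u v = 1 → e v = lam v) {ρ : ℕ}
    (hρ : finrank ℝ (span ℝ (e '' V)) = finrank ℝ X + ρ) : ∃ Ok, Mat V U ρ Ok := by
  choose! lam hlam using hL
  obtain ⟨T, hT⟩ : ∃ T, T = span ℝ (e '' V) := ⟨_, rfl⟩
  rw [← hT] at hρ
  have sf : ∀ F ∈ U, ⊤ ≤ span ℝ {v | v ∈ V ∧ F v = 1} := fun F hF =>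
    (hmin F hF).elim fun m hm => h.span_facet hF hm
  have rg : ∀ F ∈ U, ∀ S : Submodule ℝ E, (∀ v ∈ V, F v = 1 → e v ∈ S) →
      LinearMap.range (lam F) ≤ S := by
    rintro F hF S hS _ ⟨x, rfl⟩
    exact span_le.2 (fun v hv => by
      rw [SetLike.mem_coe, mem_comap, ← hlam F hF v hv.1 hv.2]
      exact hS v hv.1 hv.2) (sf F hF (mem_top (x := x))) |> mem_comap.1
  have dm : ∀ F ∈ U, finrank ℝ (LinearMap.range (lam F)) = finrank ℝ X := fun F hF => by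
    refine LinearMap.finrank_range_of_inj (Function.Injective.of_comp (f := π) ?_)
    have : π ∘ₗ lam F = LinearMap.id := LinearMap.ext_on (eq_top_iff.2 (sf F hF)) fun v hv => by
      rw [LinearMap.comp_apply, ← hlam F hF v hv.1 hv.2, hπ v hv.1, LinearMap.id_apply]
    exact fun x y k => by
      rw [← LinearMap.id_apply (R := ℝ) x, ← this, ← LinearMap.id_apply (R := ℝ) y, ← this]
      exact k
  let Sp : (X →ₗ[ℝ] ℝ) → Finset X → Prop := fun F Y =>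
    T ≤ LinearMap.range (lam F) ⊔ span ℝ (e '' Y)
  have lo : ∀ F ∈ U, ∀ Y, Sp F Y → ρ ≤ Y.card := fun F hF Y k => by
    have a := (finrank_mono k).trans (finrank_add_le_finrank_add_finrank _ _)
    have b : finrank ℝ (span ℝ (e '' Y)) ≤ Y.card := by
      rw [← coe_image]
      exact (finrank_span_finset_le_card _).trans card_image_le
    rw [dm F hF] at a
    omega
  have dr : ∀ F ∈ U, ∀ Z ⊆ V, Sp F Z → ρ < Z.card → ∃ z ∈ Z, Sp F (Z.erase z) :=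
      fun F hF Z hZ k c => by
    rcases drop (LinearMap.range (lam F)) e Z with ⟨z, hz, a⟩ | a
    · exact ⟨z, hz, k.trans (erase_le a)⟩
    · have b : LinearMap.range (lam F) ⊔ span ℝ (e '' Z) ≤ T := hT ▸ sup_le
        (rg F hF _ fun v hv _ => subset_span ⟨v, hv, rfl⟩)
        (span_mono (Set.image_mono (coe_subset.2 hZ)))
      have := finrank_mono b
      rw [a, dm F hF] at this
      omega
  have irr : ∀ F ∈ U, ∀ Y, Sp F Y → Y.card = ρ → ∀ y ∈ Y,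
      e y ∉ LinearMap.range (lam F) ⊔ span ℝ (e '' (Y.erase y : Finset X)) := by
    intro F hF Y hS hc y hy c
    have a := lo F hF _ (hS.trans (erase_le c))
    have b := card_erase_lt_of_mem hy
    omega
  have ag : ∀ F ∈ U, ∀ G ∈ U, Adj V F G → ∀ x, F x = G x → lam F x = lam G x :=
    fun F hF G hG k x hx => LinearMap.eqOn_span (fun v hv => by
      rw [← hlam F hF v hv.1 hv.2.1, hlam G hG v hv.1 hv.2.2])
      (k (LinearMap.mem_ker.2 (sub_eq_zero.2 hx)))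
  have pr : ∀ F ∈ U, ∀ G ∈ U, Adj V F G → ∀ z ∈ V, ∀ v ∈ V, G z = 1 → G v = 1 → F v ≠ 1 →
      ∀ S : Set X, v ∈ S → e z ∈ LinearMap.range (lam F) ⊔ span ℝ (e '' S) := by
    intro F hF G hG k z hz v hv a b c S hS
    have p : F v - 1 ≠ 0 := sub_ne_zero.2 c
    have q := ag F hF G hG k (z - ((F z - 1) / (F v - 1)) • v) (by
      simp only [map_sub, map_smul, smul_eq_mul, a, b]
      field_simp
      ring)
    rw [map_sub (lam G), map_smul, eq_sub_iff_add_eq, ← hlam G hG z hz a,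
      ← hlam G hG v hv b] at q
    rw [← q]
    exact add_mem (mem_sup_left ⟨_, rfl⟩) (mem_sup_right (smul_mem _ _ (subset_span ⟨v, hS, rfl⟩)))
  have y1 : ∀ F ∈ U, ∀ Y ⊆ V, Sp F Y → Y.card = ρ → ∀ y ∈ Y, F y ≠ 1 :=
    fun F hF Y hY hS hc y hy c =>
      irr F hF Y hS hc y hy (mem_sup_left ⟨y, (hlam F hF y (hY hy) c).symm⟩)
  refine ⟨fun F Y => (F ∈ U ∧ Y ⊆ V ∧ Y.card = ρ) ∧ Sp F Y, fun _ _ k => k.1, ?_, ?_, ?_, ?_, ?_, ?_⟩
  · rintro F Y ⟨⟨hF, hY, hc⟩, hS⟩ y hy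
    exact ⟨y1 F hF Y hY hS hc y hy, fun c => irr F hF Y hS hc y hy (by
      rw [c, h0]; exact zero_mem _)⟩
  · rintro F Y ⟨⟨hF, hY, hc⟩, hS⟩ G hG k x hx x1 x2
    have nx : x ∉ Y := fun c => y1 F hF Y hY hS hc x c x1
    have a : Sp G (insert x Y) := by
      refine hS.trans (sup_le ?_ ((span_mono (Set.image_mono
        (coe_subset.2 (subset_insert x Y)))).trans le_sup_right))
      rintro _ ⟨w, rfl⟩
      have p : 1 - G x ≠ 0 := sub_ne_zero.2 x2.symm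
      have b := ag F hF G hG k (w - ((F w - G w) / (1 - G x)) • x) (by
        simp only [map_sub, map_smul, smul_eq_mul, x1]
        field_simp
        ring)
      rw [map_sub (lam F), map_smul, sub_eq_iff_eq_add, ← hlam F hF x hx x1] at b
      rw [b]
      exact add_mem (mem_sup_left ⟨_, rfl⟩) (mem_sup_right (smul_mem _ _
        (subset_span ⟨x, mem_coe.2 (mem_insert_self x Y), rfl⟩)))
    obtain ⟨z, hz, q⟩ := dr G hG _ (insert_subset hx hY) a (by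
      rw [card_insert_of_notMem nx]; omega)
    exact ⟨z, hz, ⟨hG, (erase_subset _ _).trans (insert_subset hx hY), by
      rw [card_erase_of_mem hz, card_insert_of_notMem nx]; exact hc⟩, q⟩
  · rintro F Y ⟨⟨hF, hY, hc⟩, hS⟩ G hG k z hz z' hz' a b
    by_contra c
    exact irr F hF Y hS hc z hz (pr F hF G hG k z (hY hz) z' (hY hz') a b
      (y1 F hF Y hY hS hc z' hz') _ (mem_coe.2 (mem_erase.2 ⟨Ne.symm c, hz'⟩)))
  · rintro F Y ⟨⟨hF, hY, hc⟩, hS⟩ G hG k z hz v hv nv a b c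
    refine ⟨⟨hF, insert_subset hv ((erase_subset _ _).trans hY), ?_⟩,
      hS.trans (sup_le le_sup_left (span_le.2 ?_))⟩
    · rw [card_insert_of_notMem fun q => nv (mem_of_mem_erase q), card_erase_add_one hz, hc]
    · rintro _ ⟨y, hy, rfl⟩
      by_cases q : y = z
      · rw [q]
        exact pr F hF G hG k z (hY hz) v hv a b c _ (mem_coe.2 (mem_insert_self _ _))
      · exact mem_sup_right (subset_span ⟨y, mem_coe.2
          (mem_insert_of_mem (mem_erase.2 ⟨q, hy⟩)), rfl⟩)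
  · rintro F Y ⟨⟨hF, hY, hc⟩, hS⟩ H hH a ha b hb c hc' x hx x1 a1 b1 c1 x2 r nb nc
    have q := congrArg (lam H) r
    rw [map_add, map_add, ← hlam H hH a (hY ha) a1, ← hlam H hH b (hY hb) b1,
      ← hlam H hH c (hY hc') c1, ← hlam H hH x hx x2, ← eq_sub_iff_add_eq] at q
    exact irr F hF Y hS hc a ha (q ▸ sub_mem (add_mem (mem_sup_left ⟨x, (hlam F hF x hx x1).symm⟩)
      (mem_sup_right (subset_span ⟨c, mem_coe.2 (mem_erase.2 ⟨nc, hc'⟩), rfl⟩)))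
      (mem_sup_right (subset_span ⟨b, mem_coe.2 (mem_erase.2 ⟨nb, hb⟩), rfl⟩)))
  · obtain ⟨F, hF⟩ := hU
    obtain ⟨Y, hY, hm⟩ := (V.powerset.filter (Sp F)).exists_min_image card
      ⟨V, mem_filter.2 ⟨mem_powerset_self V, hT.le.trans le_sup_right⟩⟩
    obtain ⟨a, b⟩ := mem_filter.1 hY
    refine ⟨F, Y, ⟨hF, mem_powerset.1 a, le_antisymm (not_lt.1 fun c => ?_) (lo F hF Y b)⟩, b⟩
    obtain ⟨z, hz, k⟩ := dr F hF Y (mem_powerset.1 a) b c
    exact absurd (card_erase_lt_of_mem hz) (not_lt.2 (hm _ (mem_filter.2 ⟨mem_powerset.2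
      ((erase_subset z Y).trans (mem_powerset.1 a)), k⟩)))

end Pool.Agent.Work.MP_2a05c6_ag.T
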